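import Pool.Agent.R972.GM.Mix

set_option autoImplicit false

open MeasureTheory ProbabilityTheory Set
open scoped ENNReal

namespace Pool.Agent.R972.GM

/-- Cauchy-Schwarz -/
lemma cs {α : Type*} [MeasurableSpace α] {μ : Measure α} {f g : α → ℝ≥0∞} (hf : AEMeasurable f μ)
    (hg : AEMeasurable g μ) :
    (∫⁻ x, f x * g x ∂μ) ^ 2 ≤ (∫⁻ x, f x ^ 2 ∂μ) * ∫⁻ x, g x ^ 2 ∂μ := by
  have h := ENNReal.lintegral_mul_le_Lp_mul_Lq μ (p := 2) (q := 2)
    (by constructor <;> norm_num) hf hg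
  have h2 := pow_le_pow_left' h 2
  refine h2.trans (le_of_eq ?_)
  rw [mul_pow, ← ENNReal.rpow_natCast, ← ENNReal.rpow_natCast, ← ENNReal.rpow_mul,
    ← ENNReal.rpow_mul]
  norm_num

variable {d : ℕ}

/-- the second moment of the likelihood ratio of two translated Gaussians -/
lemma ratio_int (z z' : EuclideanSpace ℝ (Fin d)) :
    ∫⁻ x, ENNReal.ofReal (phi d (x - z) ^ 2 / phi d (x - z')) =
      ENNReal.ofReal (Real.exp (‖z - z'‖ ^ 2)) := by
  have h1 : ∀ x, phi d (x - z) ^ 2 / phi d (x - z') =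
      Real.exp (‖z - z'‖ ^ 2) * phi d (x - ((2:ℝ) • z - z')) := by
    intro x
    unfold phi
    have hc : (0:ℝ) < (2 * Real.pi) ^ (-(d : ℝ) / 2) := by positivity
    set c := (2 * Real.pi) ^ (-(d : ℝ) / 2)
    have e1 : (c * Real.exp (-‖x - z‖ ^ 2 / 2)) ^ 2 / (c * Real.exp (-‖x - z'‖ ^ 2 / 2)) =
        c * (Real.exp (-‖x - z‖ ^ 2 / 2) ^ 2 / Real.exp (-‖x - z'‖ ^ 2 / 2)) := by
      field_simp
    rw [e1, ← Real.exp_nat_mul, ← Real.exp_sub, mul_left_comm, ← Real.exp_add]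
    congr 2
    have e2 : ‖x - z‖ ^ 2 = ‖x‖ ^ 2 - 2 * inner ℝ x z + ‖z‖ ^ 2 := norm_sub_sq_real x z
    have e3 : ‖x - z'‖ ^ 2 = ‖x‖ ^ 2 - 2 * inner ℝ x z' + ‖z'‖ ^ 2 := norm_sub_sq_real x z'
    have e4 : ‖z - z'‖ ^ 2 = ‖z‖ ^ 2 - 2 * inner ℝ z z' + ‖z'‖ ^ 2 := norm_sub_sq_real z z'
    have e5 : ‖x - ((2:ℝ) • z - z')‖ ^ 2 = ‖x‖ ^ 2 - 2 * inner ℝ x ((2:ℝ) • z - z') +
        ‖(2:ℝ) • z - z'‖ ^ 2 := norm_sub_sq_real x _
    have e6 : ‖(2:ℝ) • z - z'‖ ^ 2 = ‖(2:ℝ) • z‖ ^ 2 - 2 * inner ℝ ((2:ℝ) • z) z' + ‖z'‖ ^ 2 :=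
      norm_sub_sq_real _ z'
    have e7 : ‖(2:ℝ) • z‖ ^ 2 = 4 * ‖z‖ ^ 2 := by rw [norm_smul, mul_pow]; norm_num
    rw [e2, e3, e4, e5, e6, e7, inner_sub_right, inner_smul_right, inner_smul_left]
    simp only [Nat.cast_ofNat, conj_trivial]
    ring
  simp_rw [h1]
  have h2 := lint_std (d := d) (fun _ => ENNReal.ofReal (Real.exp (‖z - z'‖ ^ 2))) measurable_const
    ((2:ℝ) • z - z')
  rw [lintegral_const, measure_univ, mul_one] at h2
  rw [h2]
  refine lintegral_congr fun x => ?_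
  rw [ENNReal.ofReal_mul (Real.exp_pos _).le, mul_comm]

/-- comparison of the masses of a set under two translated Gaussians -/
lemma mass_comp {A : Set (EuclideanSpace ℝ (Fin d))} (hA : MeasurableSet A)
    {M : ℝ} (z z' : EuclideanSpace ℝ (Fin d)) (hz : ‖z‖ ≤ M) (hz' : ‖z'‖ ≤ M) :
    (∫⁻ x, A.indicator 1 (x + z) ∂(stdGaussian (EuclideanSpace ℝ (Fin d)))) ^ 2 ≤
      ENNReal.ofReal (Real.exp (4 * M ^ 2)) *
        ∫⁻ x, A.indicator 1 (x + z') ∂(stdGaussian (EuclideanSpace ℝ (Fin d))) := by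
  have hind : Measurable (A.indicator (1 : EuclideanSpace ℝ (Fin d) → ℝ≥0∞)) :=
    measurable_one.indicator hA
  rw [lint_std _ hind z, lint_std _ hind z']
  have h1 : ∀ x, ENNReal.ofReal (phi d (x - z)) * A.indicator 1 x =
      ENNReal.ofReal (phi d (x - z) / Real.sqrt (phi d (x - z'))) *
        (ENNReal.ofReal (Real.sqrt (phi d (x - z'))) * A.indicator 1 x) := by
    intro x
    have hs : 0 < Real.sqrt (phi d (x - z')) := Real.sqrt_pos.2 (phi_pos _)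
    rw [← mul_assoc, ← ENNReal.ofReal_mul (div_nonneg (phi_pos _).le hs.le),
      div_mul_cancel₀ _ hs.ne']
  have hc1 : Continuous fun x : EuclideanSpace ℝ (Fin d) => phi d (x - z) :=
    phi_cont.comp (by fun_prop)
  have hc2 : Continuous fun x : EuclideanSpace ℝ (Fin d) => phi d (x - z') :=
    phi_cont.comp (by fun_prop)
  simp_rw [h1]
  refine (cs ?_ ?_).trans ?_
  · exact (hc1.measurable.div hc2.measurable.sqrt).ennreal_ofReal.aemeasurable
  · exact (hc2.measurable.sqrt.ennreal_ofReal.mul hind).aemeasurable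
  · have e1 : ∀ x, ENNReal.ofReal (phi d (x - z) / Real.sqrt (phi d (x - z'))) ^ 2 =
        ENNReal.ofReal (phi d (x - z) ^ 2 / phi d (x - z')) := by
      intro x
      rw [← ENNReal.ofReal_pow (div_nonneg (phi_pos _).le (Real.sqrt_nonneg _)), div_pow,
        Real.sq_sqrt (phi_pos _).le]
    have e2 : ∀ x, (ENNReal.ofReal (Real.sqrt (phi d (x - z'))) * A.indicator 1 x) ^ 2 =
        ENNReal.ofReal (phi d (x - z')) * A.indicator 1 x := by
      intro x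
      rw [mul_pow, ← ENNReal.ofReal_pow (Real.sqrt_nonneg _), Real.sq_sqrt (phi_pos _).le]
      congr 1
      by_cases hx : x ∈ A <;> simp [hx]
    simp_rw [e1, e2]
    rw [ratio_int]
    gcongr
    have : ‖z - z'‖ ≤ 2 * M := by
      have := norm_sub_le z z'
      linarith
    calc ‖z - z'‖ ^ 2 ≤ (2 * M) ^ 2 := by gcongr
      _ = 4 * M ^ 2 := by ring

end Pool.Agent.R972.GM
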