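import Pool.Agent.R972.GM.Cs

set_option autoImplicit false

open MeasureTheory ProbabilityTheory Set
open scoped ENNReal

namespace Pool.Agent.R972.GM

variable {d : ℕ}

section

variable {π η : Measure (EuclideanSpace ℝ (Fin d))} [IsProbabilityMeasure π]
  [IsProbabilityMeasure η] {M : ℝ}

lemma phi_le (x : EuclideanSpace ℝ (Fin d)) : phi d x ≤ (2 * Real.pi) ^ (-(d : ℝ) / 2) := by
  unfold phi
  have h1 : Real.exp (-‖x‖ ^ 2 / 2) ≤ 1 := by
    rw [Real.exp_le_one_iff]; have := sq_nonneg ‖x‖; linarith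
  have : (0:ℝ) < (2 * Real.pi) ^ (-(d : ℝ) / 2) := by positivity
  nlinarith

lemma mix_ofReal (x : EuclideanSpace ℝ (Fin d)) :
    ENNReal.ofReal (mix π x) = ∫⁻ z, ENNReal.ofReal (phi d (x - z)) ∂π := by
  have hc1 : Continuous fun z : EuclideanSpace ℝ (Fin d) => phi d (x - z) :=
    phi_cont.comp (by fun_prop)
  rw [mix, ofReal_integral_eq_lintegral_ofReal]
  · refine Integrable.of_bound hc1.aestronglyMeasurable ((2 * Real.pi) ^ (-(d : ℝ) / 2)) ?_
    refine Filter.Eventually.of_forall fun z => ?_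
    rw [Real.norm_eq_abs, abs_of_pos (phi_pos _)]
    exact phi_le _
  · exact Filter.Eventually.of_forall fun z => (phi_pos _).le

lemma phi_meas2 : Measurable fun p : EuclideanSpace ℝ (Fin d) × EuclideanSpace ℝ (Fin d) =>
    ENNReal.ofReal (phi d (p.1 - p.2)) :=
  (phi_cont.comp (by fun_prop)).measurable.ennreal_ofReal

lemma phi_sub_cont (x : EuclideanSpace ℝ (Fin d)) :
    Continuous fun z : EuclideanSpace ℝ (Fin d) => phi d (x - z) :=
  phi_cont.comp (continuous_const.sub continuous_id)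

/-- integrals against the mixture -/
lemma lint_mix (F : EuclideanSpace ℝ (Fin d) → ℝ≥0∞) (hF : Measurable F) :
    ∫⁻ x, ENNReal.ofReal (mix η x) * F x =
      ∫⁻ z, (∫⁻ x, F (x + z) ∂(stdGaussian (EuclideanSpace ℝ (Fin d)))) ∂η := by
  let G : EuclideanSpace ℝ (Fin d) → EuclideanSpace ℝ (Fin d) → ℝ≥0∞ :=
    fun z x => ENNReal.ofReal (phi d (x - z)) * F x
  have h1 : ∫⁻ z, (∫⁻ x, F (x + z) ∂(stdGaussian (EuclideanSpace ℝ (Fin d)))) ∂η =
      ∫⁻ z, (∫⁻ x, G z x) ∂η :=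
    lintegral_congr fun z => lint_std F hF z
  have hm : AEMeasurable (Function.uncurry G) (η.prod volume) :=
    ((phi_meas2.comp measurable_swap).mul (hF.comp measurable_snd)).aemeasurable
  have h2 : ∫⁻ z, (∫⁻ x, G z x) ∂η = ∫⁻ x, (∫⁻ z, G z x ∂η) := lintegral_lintegral_swap hm
  have h3 : ∀ x, ∫⁻ z, G z x ∂η = ENNReal.ofReal (mix η x) * F x := by
    intro x
    have hx : Measurable fun z : EuclideanSpace ℝ (Fin d) => ENNReal.ofReal (phi d (x - z)) :=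
      (phi_sub_cont x).measurable.ennreal_ofReal
    rw [mix_ofReal]
    exact lintegral_mul_const _ hx
  exact (h1.trans (h2.trans (lintegral_congr h3))).symm

lemma jensen_sq {α : Type*} [MeasurableSpace α] {μ : Measure α} [IsProbabilityMeasure μ]
    {f : α → ℝ≥0∞} (hf : AEMeasurable f μ) : (∫⁻ x, f x ∂μ) ^ 2 ≤ ∫⁻ x, f x ^ 2 ∂μ := by
  have h := cs (μ := μ) (f := f) (g := fun _ => 1) hf aemeasurable_const
  have e1 : ∫⁻ x, f x * 1 ∂μ = ∫⁻ x, f x ∂μ := by simp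
  have e2 : ∫⁻ _, (1:ℝ≥0∞) ^ 2 ∂μ = 1 := by simp
  rw [e1, e2, mul_one] at h
  exact h

lemma jensen_inv {α : Type*} [MeasurableSpace α] {μ : Measure α} [IsProbabilityMeasure μ]
    {f : α → ℝ} (hf : Measurable f) (h0 : ∀ x, 0 < f x) :
    1 ≤ (∫⁻ x, ENNReal.ofReal (f x) ∂μ) * ∫⁻ x, (ENNReal.ofReal (f x))⁻¹ ∂μ := by
  have hms : Measurable fun x => ENNReal.ofReal (Real.sqrt (f x)) := hf.sqrt.ennreal_ofReal
  have h := cs (μ := μ) (f := fun x => ENNReal.ofReal (Real.sqrt (f x)))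
    (g := fun x => (ENNReal.ofReal (Real.sqrt (f x)))⁻¹) hms.aemeasurable hms.inv.aemeasurable
  have e3 : ∀ x, ENNReal.ofReal (Real.sqrt (f x)) * (ENNReal.ofReal (Real.sqrt (f x)))⁻¹ = 1 := by
    intro x
    refine ENNReal.mul_inv_cancel ?_ ENNReal.ofReal_ne_top
    rw [Ne, ENNReal.ofReal_eq_zero, not_le]
    exact Real.sqrt_pos.2 (h0 x)
  have e4 : ∀ x, ENNReal.ofReal (Real.sqrt (f x)) ^ 2 = ENNReal.ofReal (f x) := by
    intro x
    rw [← ENNReal.ofReal_pow (Real.sqrt_nonneg _), Real.sq_sqrt (h0 x).le]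
  have e5 : ∀ x, (ENNReal.ofReal (Real.sqrt (f x)))⁻¹ ^ 2 = (ENNReal.ofReal (f x))⁻¹ := by
    intro x
    rw [← ENNReal.inv_pow, e4]
  rw [lintegral_congr e3, lintegral_congr e4, lintegral_congr e5] at h
  have e6 : ∫⁻ _, (1:ℝ≥0∞) ∂μ = 1 := by simp
  rw [e6, one_pow] at h
  exact h

lemma chi_pt (hM0 : 0 ≤ M) (hπ : π (Metric.closedBall 0 M)ᶜ = 0)
    (hη : η (Metric.closedBall 0 M)ᶜ = 0) (x : EuclideanSpace ℝ (Fin d)) :
    ENNReal.ofReal (mix π x ^ 2 / mix η x) ≤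
      ∫⁻ p, ENNReal.ofReal (phi d (x - p.1) ^ 2 / phi d (x - p.2)) ∂(π.prod η) := by
  have hm : Measurable fun z : EuclideanSpace ℝ (Fin d) => ENNReal.ofReal (phi d (x - z)) :=
    (phi_sub_cont x).measurable.ennreal_ofReal
  have hp := mix_pos hM0 hπ x
  have hq := mix_pos hM0 hη x
  have e1 : ENNReal.ofReal (mix π x) ^ 2 ≤ ∫⁻ z, ENNReal.ofReal (phi d (x - z)) ^ 2 ∂π := by
    rw [mix_ofReal]
    exact jensen_sq hm.aemeasurable
  have e2 : 1 ≤ ENNReal.ofReal (mix η x) * ∫⁻ z', (ENNReal.ofReal (phi d (x - z')))⁻¹ ∂η := by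
    rw [mix_ofReal]
    exact jensen_inv (phi_sub_cont x).measurable fun z => phi_pos _
  have e7 : ∀ p : EuclideanSpace ℝ (Fin d) × EuclideanSpace ℝ (Fin d),
      ENNReal.ofReal (phi d (x - p.1) ^ 2 / phi d (x - p.2)) =
      ENNReal.ofReal (phi d (x - p.1)) ^ 2 * (ENNReal.ofReal (phi d (x - p.2)))⁻¹ := by
    intro p
    rw [ENNReal.ofReal_div_of_pos (phi_pos _), ENNReal.ofReal_pow (phi_pos _).le, div_eq_mul_inv]
  have e6 : ∫⁻ p, ENNReal.ofReal (phi d (x - p.1) ^ 2 / phi d (x - p.2)) ∂(π.prod η) =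
      (∫⁻ z, ENNReal.ofReal (phi d (x - z)) ^ 2 ∂π) *
        ∫⁻ z', (ENNReal.ofReal (phi d (x - z')))⁻¹ ∂η := by
    rw [lintegral_congr e7]
    exact lintegral_prod_mul (hm.pow_const 2).aemeasurable hm.inv.aemeasurable
  rw [e6, ENNReal.ofReal_div_of_pos hq, ENNReal.ofReal_pow hp.le, div_eq_mul_inv]
  refine mul_le_mul' e1 ?_
  rw [← one_div]
  exact ENNReal.div_le_of_le_mul' e2

/-- the chi-squared type bound by convexity -/
lemma chi_conv (hM0 : 0 ≤ M) (hπ : π (Metric.closedBall 0 M)ᶜ = 0)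
    (hη : η (Metric.closedBall 0 M)ᶜ = 0) :
    ∫⁻ x, ENNReal.ofReal (mix π x ^ 2 / mix η x) ≤ ENNReal.ofReal (Real.exp (4 * M ^ 2)) := by
  have hcF : Continuous fun p : EuclideanSpace ℝ (Fin d) × (EuclideanSpace ℝ (Fin d) ×
      EuclideanSpace ℝ (Fin d)) => phi d (p.1 - p.2.1) ^ 2 / phi d (p.1 - p.2.2) :=
    Continuous.div ((phi_cont.comp (continuous_fst.sub (continuous_fst.comp continuous_snd))).pow 2)
      (phi_cont.comp (continuous_fst.sub (continuous_snd.comp continuous_snd)))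
      fun p => (phi_pos _).ne'
  have hmF := hcF.measurable.ennreal_ofReal
  let G : EuclideanSpace ℝ (Fin d) → (EuclideanSpace ℝ (Fin d) × EuclideanSpace ℝ (Fin d)) → ℝ≥0∞ :=
    fun x p => ENNReal.ofReal (phi d (x - p.1) ^ 2 / phi d (x - p.2))
  have hG : AEMeasurable (Function.uncurry G) (volume.prod (π.prod η)) := hmF.aemeasurable
  have hswap : ∫⁻ x, ∫⁻ p, G x p ∂(π.prod η) = ∫⁻ p, (∫⁻ x, G x p) ∂(π.prod η) :=
    lintegral_lintegral_swap hG
  calc ∫⁻ x, ENNReal.ofReal (mix π x ^ 2 / mix η x) ≤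
      ∫⁻ x, ∫⁻ p, G x p ∂(π.prod η) :=
        lintegral_mono fun x => chi_pt hM0 hπ hη x
    _ = ∫⁻ p, (∫⁻ x, G x p) ∂(π.prod η) := hswap
    _ ≤ ∫⁻ _, ENNReal.ofReal (Real.exp (4 * M ^ 2)) ∂(π.prod η) := by
        refine lintegral_mono_ae ?_
        have ha1 : ∀ᵐ p ∂(π.prod η), ‖p.1‖ ≤ M :=
          Measure.quasiMeasurePreserving_fst.ae (ae_ball hπ)
        have ha2 : ∀ᵐ p ∂(π.prod η), ‖p.2‖ ≤ M :=
          Measure.quasiMeasurePreserving_snd.ae (ae_ball hη)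
        filter_upwards [ha1, ha2] with p h1 h2
        have h3 : ∫⁻ x, G x p = ENNReal.ofReal (Real.exp (‖p.1 - p.2‖ ^ 2)) := ratio_int p.1 p.2
        rw [h3]
        apply ENNReal.ofReal_le_ofReal
        rw [Real.exp_le_exp]
        have : ‖p.1 - p.2‖ ≤ 2 * M := by
          have := norm_sub_le p.1 p.2
          linarith
        calc ‖p.1 - p.2‖ ^ 2 ≤ (2 * M) ^ 2 := pow_le_pow_left₀ (norm_nonneg _) this 2
          _ = 4 * M ^ 2 := by ring
    _ = _ := by simp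

end

end Pool.Agent.R972.GM
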