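import Mathlib

/-!
# Gaussian mixtures: definitions
-/

set_option autoImplicit false

open MeasureTheory

namespace Pool.Agent.R972.GM

/-- The standard Gaussian density `(2π)^(-d/2) exp (-‖x‖²/2)` on `ℝ^d`. -/
noncomputable def phi (d : ℕ) (x : EuclideanSpace ℝ (Fin d)) : ℝ :=
  (2 * Real.pi) ^ (-(d : ℝ) / 2) * Real.exp (-‖x‖ ^ 2 / 2)

/-- The density `f_π(x) = ∫ (2π)^(-d/2) exp (-‖x - z‖²/2) π(dz)` of the Gaussian mixture with
mixing distribution `π`. -/
noncomputable def mix {d : ℕ} (π : Measure (EuclideanSpace ℝ (Fin d)))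
    (x : EuclideanSpace ℝ (Fin d)) : ℝ :=
  ∫ z, phi d (x - z) ∂π

end Pool.Agent.R972.GM
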