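import Pool.Agent.R972.GM.Cs2

set_option autoImplicit false
set_option maxHeartbeats 400000

open MeasureTheory ProbabilityTheory Set
open scoped ENNReal

namespace Pool.Agent.R972.GM

variable {d : ℕ} {π η : Measure (EuclideanSpace ℝ (Fin d))} [IsProbabilityMeasure π]
  [IsProbabilityMeasure η] {M : ℝ}

/-- the set where the likelihood ratio is large -/
def AA (π η : Measure (EuclideanSpace ℝ (Fin d))) : Set (EuclideanSpace ℝ (Fin d)) :=
  {x | 1 / 2 < g π η x}

/-- the truncated power of the likelihood ratio -/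
noncomputable def ww (π η : Measure (EuclideanSpace ℝ (Fin d))) (k : ℕ)
    (x : EuclideanSpace ℝ (Fin d)) : ℝ := Psi k (g π η x - 1 / 2)

lemma ww_nonneg (k : ℕ) (x : EuclideanSpace ℝ (Fin d)) : 0 ≤ ww π η k x := Psi_nonneg _ _

lemma ww_zero (k : ℕ) {x : EuclideanSpace ℝ (Fin d)} (hx : x ∉ AA π η) : ww π η k x = 0 := by
  have : g π η x ≤ 1 / 2 := not_lt.1 hx
  exact Psi_zero k (by linarith)

lemma g_cont (hM0 : 0 ≤ M) (hπ : π (Metric.closedBall 0 M)ᶜ = 0)
    (hη : η (Metric.closedBall 0 M)ᶜ = 0) : Continuous (g π η) := (g_diff hM0 hπ hη).1.continuous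

lemma AA_meas (hM0 : 0 ≤ M) (hπ : π (Metric.closedBall 0 M)ᶜ = 0)
    (hη : η (Metric.closedBall 0 M)ᶜ = 0) : MeasurableSet (AA π η) :=
  (isOpen_lt continuous_const (g_cont hM0 hπ hη)).measurableSet

lemma ww_deriv (hM0 : 0 ≤ M) (hπ : π (Metric.closedBall 0 M)ᶜ = 0)
    (hη : η (Metric.closedBall 0 M)ᶜ = 0) {k : ℕ} (hk : 1 ≤ k) (x : EuclideanSpace ℝ (Fin d)) :
    ∃ D : EuclideanSpace ℝ (Fin d) →L[ℝ] ℝ, HasFDerivAt (ww π η k) D x ∧
      ‖D‖ ≤ (2 * M / k) * (ww π η k x + 1) ∧ (x ∉ AA π η → ‖D‖ = 0) := by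
  have hg := (g_diff hM0 hπ hη).1 x
  have hgn := (g_diff hM0 hπ hη).2 x
  have h1 : HasFDerivAt (fun x => g π η x - 1 / 2) (fderiv ℝ (g π η) x) x :=
    hg.hasFDerivAt.sub_const _
  have h2 : HasFDerivAt (ww π η k)
      ((Real.sinh (max (g π η x - 1 / 2) 0 / k) / k) • fderiv ℝ (g π η) x) x :=
    (Psi_deriv k (g π η x - 1 / 2)).comp_hasFDerivAt x h1
  refine ⟨_, h2, ?_, ?_⟩
  · rw [norm_smul, Real.norm_eq_abs]
    have h3 := Psi_deriv_le hk (g π η x - 1 / 2)
    have h4 : 0 ≤ (Psi k (g π η x - 1 / 2) + 1) / k :=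
      div_nonneg (by linarith [Psi_nonneg k (g π η x - 1 / 2)]) (Nat.cast_nonneg _)
    calc |Real.sinh (max (g π η x - 1 / 2) 0 / k) / k| * ‖fderiv ℝ (g π η) x‖ ≤
        (Psi k (g π η x - 1 / 2) + 1) / k * (2 * M) := mul_le_mul h3 hgn (norm_nonneg _) h4
      _ = (2 * M / k) * (ww π η k x + 1) := by rw [ww]; ring
  · intro hx
    have : g π η x ≤ 1 / 2 := not_lt.1 hx
    rw [max_eq_right (by linarith : g π η x - 1 / 2 ≤ 0)]
    simp

lemma ww_cont (hM0 : 0 ≤ M) (hπ : π (Metric.closedBall 0 M)ᶜ = 0)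
    (hη : η (Metric.closedBall 0 M)ᶜ = 0) {k : ℕ} (hk : 1 ≤ k) : Continuous (ww π η k) := by
  rw [continuous_iff_continuousAt]
  intro x
  obtain ⟨D, hD, -⟩ := ww_deriv hM0 hπ hη hk x
  exact hD.continuousAt

/-- the constant in the rotation inequality is small -/
lemma const_small {k : ℕ} (hk : 1 ≤ k) (hM0 : 0 ≤ M) (hkM : 96 * Real.pi ^ 2 * M ^ 2 ≤ k) :
    (Real.pi / 2) ^ (2 * k) * (12 * k) ^ k * (2 * M / k) ^ (2 * k) * 4 ^ k ≤ 1 / 2 := by
  have hk0 : (0:ℝ) < k := by exact_mod_cast hk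
  have e : (Real.pi / 2) ^ (2 * k) * (12 * k) ^ k * (2 * M / k) ^ (2 * k) * 4 ^ k =
      (48 * Real.pi ^ 2 * M ^ 2 / k) ^ k := by
    rw [pow_mul, pow_mul, ← mul_pow, ← mul_pow, ← mul_pow]
    congr 1
    field_simp
    ring
  rw [e]
  have h1 : 48 * Real.pi ^ 2 * M ^ 2 / k ≤ 1 / 2 := by
    rw [div_le_iff₀ hk0]; linarith
  have h0 : 0 ≤ 48 * Real.pi ^ 2 * M ^ 2 / k := by positivity
  calc (48 * Real.pi ^ 2 * M ^ 2 / k) ^ k ≤ (1 / 2) ^ k := pow_le_pow_left₀ h0 h1 k
    _ ≤ (1 / 2) ^ 1 := pow_le_pow_of_le_one (by norm_num) (by norm_num) hk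
    _ = 1 / 2 := by norm_num

/-- the key estimate for one translated Gaussian -/
lemma key (hM0 : 0 ≤ M) (hπ : π (Metric.closedBall 0 M)ᶜ = 0)
    (hη : η (Metric.closedBall 0 M)ᶜ = 0) {k : ℕ} (hk : 1 ≤ k)
    (hkM : 96 * Real.pi ^ 2 * M ^ 2 ≤ k) (z : EuclideanSpace ℝ (Fin d))
    (hq : ∫⁻ x, (AA π η).indicator 1 (x + z) ∂(stdGaussian (EuclideanSpace ℝ (Fin d))) ≤ 1 / 2)
    (hfin : ∫⁻ x, ENNReal.ofReal (ww π η k (x + z) ^ (2 * k))
      ∂(stdGaussian (EuclideanSpace ℝ (Fin d))) ≠ ∞) :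
    ∫⁻ x, (AA π η).indicator (fun x => ENNReal.ofReal (Real.exp (2 * g π η x))) (x + z)
      ∂(stdGaussian (EuclideanSpace ℝ (Fin d))) ≤
      ENNReal.ofReal (Real.exp 1 * 16 ^ k) *
        ∫⁻ x, (AA π η).indicator 1 (x + z) ∂(stdGaussian (EuclideanSpace ℝ (Fin d))) := by
  set γ := stdGaussian (EuclideanSpace ℝ (Fin d)) with hγ
  set A := AA π η with hA
  set w := ww π η k with hw
  have hAm : MeasurableSet A := AA_meas hM0 hπ hη
  have hwc : Continuous w := ww_cont hM0 hπ hη hk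
  have htr : Continuous fun x : EuclideanSpace ℝ (Fin d) => x + z := by fun_prop
  have hwn : ∀ x, 0 ≤ w x := fun x => ww_nonneg k x
  set a := ∫⁻ x, ENNReal.ofReal (w (x + z) ^ (2 * k)) ∂γ with ha
  set q := ∫⁻ x, A.indicator (1 : EuclideanSpace ℝ (Fin d) → ℝ≥0∞) (x + z) ∂γ with hqdef
  set S := ∫⁻ x, A.indicator (fun x => ENNReal.ofReal ((w x + 1) ^ (2 * k))) (x + z) ∂γ with hS
  have hind : Measurable (A.indicator (1 : EuclideanSpace ℝ (Fin d) → ℝ≥0∞)) :=
    measurable_one.indicator hAm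
  have hindz : Measurable fun x => A.indicator (1 : EuclideanSpace ℝ (Fin d) → ℝ≥0∞) (x + z) :=
    hind.comp htr.measurable
  have hwz : Continuous fun x => w (x + z) := hwc.comp htr
  have hwpm : Measurable fun x => ENNReal.ofReal (w (x + z) ^ (2 * k)) :=
    (hwz.pow _).measurable.ennreal_ofReal
  -- derivative of the translate
  have hder : ∀ x, ∃ D : EuclideanSpace ℝ (Fin d) →L[ℝ] ℝ,
      HasFDerivAt (fun x => w (x + z)) D x ∧ ‖D‖ ≤ (2 * M / k) * (w (x + z) + 1) ∧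
      (x + z ∉ A → ‖D‖ = 0) := by
    intro x
    obtain ⟨D, h1, h2, h3⟩ := ww_deriv hM0 hπ hη hk (x + z)
    exact ⟨D, (hasFDerivAt_comp_add_right z).2 h1, h2, h3⟩
  have hdiff : Differentiable ℝ fun x => w (x + z) := fun x => by
    obtain ⟨D, h1, -⟩ := hder x
    exact h1.differentiableAt
  have hbound : ∀ x, ‖fderiv ℝ (fun x => w (x + z)) x‖ ≤ (2 * M / k) * (w (x + z) + 1) := fun x => by
    obtain ⟨D, h1, h2, -⟩ := hder x
    rw [h1.fderiv]; exact h2
  have hrot := rotp hdiff (b := fun x => (2 * M / k) * (w (x + z) + 1)) (by fun_prop) hbound k hk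
  -- upper bound
  have hup : ∫⁻ x, ENNReal.ofReal (‖fderiv ℝ (fun x => w (x + z)) x‖ ^ (2 * k)) ∂γ ≤
      ENNReal.ofReal ((2 * M / k) ^ (2 * k)) * S := by
    have hSm : Measurable fun x => A.indicator (fun x => ENNReal.ofReal ((w x + 1) ^ (2 * k))) (x + z) :=
      (((hwc.add continuous_const).pow _).measurable.ennreal_ofReal.indicator hAm).comp
        htr.measurable
    rw [hS, ← lintegral_const_mul _ hSm]
    refine lintegral_mono fun x => ?_
    obtain ⟨D, h1, h2, h3⟩ := hder x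
    rw [h1.fderiv]
    by_cases hx : x + z ∈ A
    · rw [indicator_of_mem hx, ← ENNReal.ofReal_mul (by positivity), ← mul_pow]
      exact ENNReal.ofReal_le_ofReal (pow_le_pow_left₀ (norm_nonneg _) h2 _)
    · rw [h3 hx]
      simp [show k ≠ 0 by omega]
  -- lower bound
  have hlow : (1 / 2) * a ≤ ∫⁻ p, ENNReal.ofReal ((w (p.2 + z) - w (p.1 + z)) ^ (2 * k)) ∂(γ.prod γ) := by
    have hc : ∫⁻ x, Aᶜ.indicator (1 : EuclideanSpace ℝ (Fin d) → ℝ≥0∞) (x + z) ∂γ + q = 1 := by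
      rw [hqdef, ← lintegral_add_right _ hindz]
      have : ∀ x, Aᶜ.indicator (1 : EuclideanSpace ℝ (Fin d) → ℝ≥0∞) (x + z) +
          A.indicator (1 : EuclideanSpace ℝ (Fin d) → ℝ≥0∞) (x + z) = 1 := by
        intro x
        by_cases hx : x + z ∈ A <;> simp [hx]
      rw [lintegral_congr this]; simp
    have hhalf : (1 / 2 : ℝ≥0∞) ≤
        ∫⁻ x, Aᶜ.indicator (1 : EuclideanSpace ℝ (Fin d) → ℝ≥0∞) (x + z) ∂γ := by
      by_contra hlt
      push Not at hlt
      have h6 : ∫⁻ x, Aᶜ.indicator (1 : EuclideanSpace ℝ (Fin d) → ℝ≥0∞) (x + z) ∂γ + q <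
          1 / 2 + 1 / 2 := ENNReal.add_lt_add_of_lt_of_le (ne_top_of_le_ne_top (by simp) hq) hlt hq
      rw [hc, ENNReal.add_halves] at h6
      exact lt_irrefl _ h6
    have hcm : Measurable fun x => Aᶜ.indicator (1 : EuclideanSpace ℝ (Fin d) → ℝ≥0∞) (x + z) :=
      (measurable_one.indicator hAm.compl).comp htr.measurable
    calc (1 / 2) * a ≤ (∫⁻ x, Aᶜ.indicator (1 : EuclideanSpace ℝ (Fin d) → ℝ≥0∞) (x + z) ∂γ) * a := by
          gcongr
      _ = ∫⁻ p, Aᶜ.indicator (1 : EuclideanSpace ℝ (Fin d) → ℝ≥0∞) (p.1 + z) *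
            ENNReal.ofReal (w (p.2 + z) ^ (2 * k)) ∂(γ.prod γ) :=
          (lintegral_prod_mul hcm.aemeasurable hwpm.aemeasurable).symm
      _ ≤ _ := by
          refine lintegral_mono fun p => ?_
          by_cases hp : p.1 + z ∈ A
          · rw [indicator_of_notMem (by simpa using hp)]; simp
          · rw [indicator_of_mem (by simpa using hp), Pi.one_apply, one_mul]
            have : w (p.1 + z) = 0 := ww_zero k hp
            rw [this, sub_zero]
  have hSle : S ≤ ENNReal.ofReal (4 ^ k / 2) * (a + q) := by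
    have hsum : Measurable fun x => ENNReal.ofReal (w (x + z) ^ (2 * k)) +
        A.indicator (1 : EuclideanSpace ℝ (Fin d) → ℝ≥0∞) (x + z) := hwpm.add hindz
    rw [ha, hqdef, ← lintegral_add_left hwpm, ← lintegral_const_mul _ hsum]
    refine lintegral_mono fun x => ?_
    by_cases hx : x + z ∈ A
    · rw [indicator_of_mem hx, indicator_of_mem hx, Pi.one_apply]
      have h1 : (1 : ℝ≥0∞) = ENNReal.ofReal 1 := by simp
      have h2 := hwn (x + z)
      rw [h1, ← ENNReal.ofReal_add (by positivity) zero_le_one, ← ENNReal.ofReal_mul (by positivity)]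
      apply ENNReal.ofReal_le_ofReal
      have h3 := add_pow_le h2 zero_le_one (2 * k)
      rw [one_pow] at h3
      refine h3.trans (le_of_eq ?_)
      congr 1
      have h4 : (2:ℝ) ^ (2 * k - 1) * 2 = 4 ^ k := by
        rw [← pow_succ, show 2 * k - 1 + 1 = 2 * k by omega, pow_mul]; norm_num
      linarith
    · rw [indicator_of_notMem hx]; exact zero_le
  -- combination
  have hcomb : (1 / 2) * a ≤ ENNReal.ofReal ((Real.pi / 2) ^ (2 * k) * (12 * k) ^ k *
      (2 * M / k) ^ (2 * k) * (4 ^ k / 2)) * (a + q) := by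
    have hp1 : (0:ℝ) ≤ (Real.pi / 2) ^ (2 * k) * (12 * k) ^ k := by positivity
    have hp2 : (0:ℝ) ≤ (2 * M / k) ^ (2 * k) := by positivity
    calc (1 / 2) * a ≤ ENNReal.ofReal ((Real.pi / 2) ^ (2 * k) * (12 * k) ^ k) *
          (ENNReal.ofReal ((2 * M / k) ^ (2 * k)) * (ENNReal.ofReal (4 ^ k / 2) * (a + q))) :=
          hlow.trans (hrot.trans (mul_le_mul_right (hup.trans (mul_le_mul_right hSle _)) _))
      _ = _ := by
          rw [ENNReal.ofReal_mul (mul_nonneg hp1 hp2), ENNReal.ofReal_mul hp1]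
          ring
  have hquarter : (1 / 2) * a ≤ ENNReal.ofReal (1 / 4) * (a + q) := by
    refine hcomb.trans (mul_le_mul_left (ENNReal.ofReal_le_ofReal ?_) _)
    have := const_small hk hM0 hkM
    linarith
  have haq : a ≤ q := by
    have hqt : q ≠ ∞ := ne_top_of_le_ne_top (by simp) hq
    have e1 : ENNReal.ofReal (1 / 4) * (a + q) = ENNReal.ofReal (a.toReal / 4 + q.toReal / 4) := by
      conv_lhs => rw [← ENNReal.ofReal_toReal hfin, ← ENNReal.ofReal_toReal hqt]
      rw [← ENNReal.ofReal_add (by positivity) (by positivity), ← ENNReal.ofReal_mul (by norm_num)]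
      congr 1; ring
    have e2 : (1 / 2) * a = ENNReal.ofReal (a.toReal / 2) := by
      have h2 : (1 / 2 : ℝ≥0∞) = ENNReal.ofReal (1 / 2) := by
        rw [ENNReal.ofReal_div_of_pos (by norm_num)]; simp
      conv_lhs => rw [← ENNReal.ofReal_toReal hfin, h2]
      rw [← ENNReal.ofReal_mul (by norm_num)]
      congr 1; ring
    rw [e1, e2, ENNReal.ofReal_le_ofReal_iff (by positivity)] at hquarter
    rw [← ENNReal.toReal_le_toReal hfin hqt]
    linarith
  -- conclusion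
  have hexp : ∫⁻ x, A.indicator (fun x => ENNReal.ofReal (Real.exp (2 * g π η x))) (x + z) ∂γ ≤
      ENNReal.ofReal (Real.exp 1 * 4 ^ k) * S := by
    have hSm : Measurable fun x => A.indicator (fun x => ENNReal.ofReal ((w x + 1) ^ (2 * k))) (x + z) :=
      (((hwc.add continuous_const).pow _).measurable.ennreal_ofReal.indicator hAm).comp
        htr.measurable
    rw [hS, ← lintegral_const_mul _ hSm]
    refine lintegral_mono fun x => ?_
    by_cases hx : x + z ∈ A
    · rw [indicator_of_mem hx, indicator_of_mem hx, ← ENNReal.ofReal_mul (by positivity)]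
      apply ENNReal.ofReal_le_ofReal
      have hx' : 1 / 2 < g π η (x + z) := hx
      have h1 := exp_le_Psi hk (t := g π η (x + z) - 1 / 2) (by linarith)
      have h2 : Real.exp (2 * g π η (x + z)) = Real.exp 1 * Real.exp (2 * (g π η (x + z) - 1 / 2)) := by
        rw [← Real.exp_add]; congr 1; ring
      rw [h2, mul_assoc]
      gcongr
      exact h1
    · rw [indicator_of_notMem hx]; exact zero_le
  calc ∫⁻ x, A.indicator (fun x => ENNReal.ofReal (Real.exp (2 * g π η x))) (x + z) ∂γ ≤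
      ENNReal.ofReal (Real.exp 1 * 4 ^ k) * S := hexp
    _ ≤ ENNReal.ofReal (Real.exp 1 * 4 ^ k) * (ENNReal.ofReal (4 ^ k / 2) * (q + q)) := by
        gcongr
        exact hSle.trans (by gcongr)
    _ = ENNReal.ofReal (Real.exp 1 * 16 ^ k) * q := by
        rw [← two_mul, ← mul_assoc, ← mul_assoc]
        congr 1
        have h2 : (2 : ℝ≥0∞) = ENNReal.ofReal 2 := by simp
        rw [h2, ← ENNReal.ofReal_mul (by positivity), ← ENNReal.ofReal_mul (by positivity)]
        congr 1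
        have h3 : (16:ℝ) ^ k = 4 ^ k * 4 ^ k := by rw [← mul_pow]; norm_num
        rw [h3]; ring

end Pool.Agent.R972.GM
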