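import Pool.Agent.R972.GM.Key

set_option autoImplicit false
set_option maxHeartbeats 400000

open MeasureTheory ProbabilityTheory Set
open scoped ENNReal

namespace Pool.Agent.R972.GM

variable {d : ℕ} {π η : Measure (EuclideanSpace ℝ (Fin d))} [IsProbabilityMeasure π]
  [IsProbabilityMeasure η] {M : ℝ}

lemma exp_quarter : 5 / 4 ≤ Real.exp (1 / 4) := by
  have := Real.add_one_le_exp (1 / 4 : ℝ)
  linarith

lemma exp_quarter_le : Real.exp (1 / 4) ≤ 2 := by
  have h1 : Real.exp (1 / 4) ≤ Real.exp 1 ^ (1 / 4 : ℝ) := by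
    rw [← Real.exp_mul]; simp
  have h2 : Real.exp (1 / 4) * Real.exp (1 / 4) * (Real.exp (1 / 4) * Real.exp (1 / 4)) =
      Real.exp 1 := by
    rw [← Real.exp_add, ← Real.exp_add]; norm_num
  have h3 := Real.exp_one_lt_d9
  by_contra hlt
  push Not at hlt
  have h4 : 4 < Real.exp (1 / 4) * Real.exp (1 / 4) := by nlinarith
  nlinarith

/-- pointwise bound off `AA` -/
lemma pt_off {a b g : ℝ} (hb : 0 < b) (hab : a = b * Real.exp g) (hg : g ≤ 1 / 2) :
    (a - b) ^ 2 / b ≤ 9 * (Real.sqrt a - Real.sqrt b) ^ 2 := by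
  have hs : Real.sqrt a = Real.sqrt b * Real.exp (g / 2) := by
    rw [hab, Real.sqrt_mul hb.le, show Real.exp g = Real.exp (g / 2) ^ 2 by
      rw [← Real.exp_nat_mul]; congr 1; push_cast; ring, Real.sqrt_sq (Real.exp_pos _).le]
  have hE : Real.exp g = Real.exp (g / 2) ^ 2 := by
    rw [← Real.exp_nat_mul]; congr 1; push_cast; ring
  set t := Real.exp (g / 2) with ht
  have ht0 : 0 < t := Real.exp_pos _
  have ht2 : t ≤ 2 := (Real.exp_le_exp.2 (by linarith)).trans exp_quarter_le
  have hbs : Real.sqrt b ^ 2 = b := Real.sq_sqrt hb.le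
  have e1 : (a - b) ^ 2 / b = b * ((t - 1) ^ 2 * (t + 1) ^ 2) := by
    rw [hab, hE]; field_simp; ring
  have e2 : (Real.sqrt a - Real.sqrt b) ^ 2 = b * (t - 1) ^ 2 := by
    rw [hs]
    calc (Real.sqrt b * t - Real.sqrt b) ^ 2 = Real.sqrt b ^ 2 * (t - 1) ^ 2 := by ring
      _ = _ := by rw [hbs]
  rw [e1, e2]
  have h3 : (t + 1) ^ 2 ≤ 9 := by nlinarith
  have h4 : 0 ≤ b * (t - 1) ^ 2 := by positivity
  nlinarith

/-- pointwise bounds on `AA` -/
lemma pt_on {a b g : ℝ} (hb : 0 < b) (hab : a = b * Real.exp g) (hg : 1 / 2 < g) :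
    (a - b) ^ 2 / b ≤ a ^ 2 / b ∧ a ^ 2 / b = b * Real.exp (2 * g) ∧
      b ≤ 16 * (Real.sqrt a - Real.sqrt b) ^ 2 := by
  have h1 : 1 ≤ Real.exp g := Real.one_le_exp (by linarith)
  have hba : b ≤ a := by rw [hab]; nlinarith
  refine ⟨?_, ?_, ?_⟩
  · gcongr
    linarith
  · rw [hab, show 2 * g = g + g by ring, Real.exp_add]
    field_simp
  · have hs : Real.sqrt a = Real.sqrt b * Real.exp (g / 2) := by
      rw [hab, Real.sqrt_mul hb.le, show Real.exp g = Real.exp (g / 2) ^ 2 by
        rw [← Real.exp_nat_mul]; congr 1; push_cast; ring, Real.sqrt_sq (Real.exp_pos _).le]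
    have hbs : Real.sqrt b ^ 2 = b := Real.sq_sqrt hb.le
    set t := Real.exp (g / 2) with ht
    have ht2 : 5 / 4 ≤ t := exp_quarter.trans (Real.exp_le_exp.2 (by linarith))
    have e2 : (Real.sqrt a - Real.sqrt b) ^ 2 = b * (t - 1) ^ 2 := by
      rw [hs]
      calc (Real.sqrt b * t - Real.sqrt b) ^ 2 = Real.sqrt b ^ 2 * (t - 1) ^ 2 := by ring
        _ = _ := by rw [hbs]
    rw [e2]
    have h3 : 1 / 16 ≤ (t - 1) ^ 2 := by nlinarith
    nlinarith

/-- the constant -/
noncomputable def CC (M : ℝ) : ℝ :=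
  9 + 16 * (Real.exp 1 * 16 ^ (⌈96 * Real.pi ^ 2 * M ^ 2⌉₊ + 1)) + 64 * Real.exp (8 * M ^ 2)

lemma CC_pos (M : ℝ) : 0 < CC M := by unfold CC; positivity

theorem chi_lint (hM0 : 0 ≤ M) (hπ : π (Metric.closedBall 0 M)ᶜ = 0)
    (hη : η (Metric.closedBall 0 M)ᶜ = 0) :
    ∫⁻ x, ENNReal.ofReal ((mix π x - mix η x) ^ 2 / mix η x) ≤
      ENNReal.ofReal (CC M) * ∫⁻ x, ENNReal.ofReal ((Real.sqrt (mix π x) - Real.sqrt (mix η x)) ^ 2) := by
  set k := ⌈96 * Real.pi ^ 2 * M ^ 2⌉₊ + 1 with hkdef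
  have hk : 1 ≤ k := by omega
  have hkM : 96 * Real.pi ^ 2 * M ^ 2 ≤ k := by
    rw [hkdef]; push_cast
    have := Nat.le_ceil (96 * Real.pi ^ 2 * M ^ 2)
    linarith
  set γ := stdGaussian (EuclideanSpace ℝ (Fin d)) with hγ
  set A := AA π η with hA
  have hAm : MeasurableSet A := AA_meas hM0 hπ hη
  have hgc : Continuous (g π η) := g_cont hM0 hπ hη
  have hpc : Continuous (mix π) := mix_cont hM0 hπ
  have hqc : Continuous (mix η) := mix_cont hM0 hη
  have hp0 : ∀ x, 0 < mix π x := mix_pos hM0 hπ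
  have hq0 : ∀ x, 0 < mix η x := mix_pos hM0 hη
  have hpq : ∀ x, mix π x = mix η x * Real.exp (g π η x) := g_exp hM0 hπ hη
  set H := ∫⁻ x, ENNReal.ofReal ((Real.sqrt (mix π x) - Real.sqrt (mix η x)) ^ 2) with hH
  have hHm : Measurable fun x => ENNReal.ofReal ((Real.sqrt (mix π x) - Real.sqrt (mix η x)) ^ 2) :=
    ((hpc.sqrt.sub hqc.sqrt).pow 2).measurable.ennreal_ofReal
  let FE : EuclideanSpace ℝ (Fin d) → ℝ≥0∞ :=
    A.indicator (fun x => ENNReal.ofReal (Real.exp (2 * g π η x)))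
  let F1 : EuclideanSpace ℝ (Fin d) → ℝ≥0∞ := A.indicator 1
  have hFE : Measurable FE :=
    ((Real.continuous_exp.comp (continuous_const.mul hgc)).measurable.ennreal_ofReal).indicator hAm
  have hF1 : Measurable F1 := measurable_one.indicator hAm
  set QE := ∫⁻ x, ENNReal.ofReal (mix η x) * FE x with hQE
  set Q1 := ∫⁻ x, ENNReal.ofReal (mix η x) * F1 x with hQ1
  -- first splitting
  have hsplit : ∫⁻ x, ENNReal.ofReal ((mix π x - mix η x) ^ 2 / mix η x) ≤
      ENNReal.ofReal 9 * H + QE := by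
    rw [hH, ← lintegral_const_mul _ hHm, hQE, ← lintegral_add_left (hHm.const_mul _)]
    refine lintegral_mono fun x => ?_
    by_cases hx : x ∈ A
    · have hx' : 1 / 2 < g π η x := hx
      obtain ⟨h1, h2, -⟩ := pt_on (hq0 x) (hpq x) hx'
      have h3 : ENNReal.ofReal (mix η x) * FE x = ENNReal.ofReal (mix η x * Real.exp (2 * g π η x)) := by
        rw [show FE x = ENNReal.ofReal (Real.exp (2 * g π η x)) from indicator_of_mem hx _,
          ENNReal.ofReal_mul (hq0 x).le]
      rw [h3, ← h2]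
      exact (ENNReal.ofReal_le_ofReal h1).trans le_add_self
    · have hx' : g π η x ≤ 1 / 2 := not_lt.1 hx
      have h1 := pt_off (hq0 x) (hpq x) hx'
      refine le_trans ?_ le_self_add
      rw [← ENNReal.ofReal_mul (by norm_num)]
      exact ENNReal.ofReal_le_ofReal h1
  have hQ1H : Q1 ≤ ENNReal.ofReal 16 * H := by
    rw [hH, ← lintegral_const_mul _ hHm, hQ1]
    refine lintegral_mono fun x => ?_
    by_cases hx : x ∈ A
    · have hx' : 1 / 2 < g π η x := hx
      obtain ⟨-, -, h1⟩ := pt_on (hq0 x) (hpq x) hx'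
      rw [show F1 x = 1 by simp [F1, hx], mul_one, ← ENNReal.ofReal_mul (by norm_num)]
      exact ENNReal.ofReal_le_ofReal h1
    · rw [show F1 x = 0 by simp [F1, hx], mul_zero]; exact zero_le
  have hQEmix : QE = ∫⁻ z, (∫⁻ x, FE (x + z) ∂γ) ∂η := lint_mix FE hFE
  have hQ1mix : Q1 = ∫⁻ z, (∫⁻ x, F1 (x + z) ∂γ) ∂η := lint_mix F1 hF1
  have hchi := chi_conv (M := M) hM0 hπ hη
  -- bound in terms of `f_π² / f_η`
  have hQEchi : QE ≤ ENNReal.ofReal (Real.exp (4 * M ^ 2)) := by
    refine le_trans (lintegral_mono fun x => ?_) hchi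
    by_cases hx : x ∈ A
    · have hx' : 1 / 2 < g π η x := hx
      obtain ⟨-, h2, -⟩ := pt_on (hq0 x) (hpq x) hx'
      rw [show FE x = ENNReal.ofReal (Real.exp (2 * g π η x)) from indicator_of_mem hx _,
          ← ENNReal.ofReal_mul (hq0 x).le, h2]
    · rw [show FE x = 0 from indicator_of_notMem hx _, mul_zero]; exact zero_le
  have hgoal : QE ≤ ENNReal.ofReal (16 * (Real.exp 1 * 16 ^ k) + 64 * Real.exp (8 * M ^ 2)) * H := by
    by_cases hcase : ∀ z, ‖z‖ ≤ M → ∫⁻ x, F1 (x + z) ∂γ ≤ 1 / 2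
    · -- the good case
      have hfin : ∀ᵐ z ∂η, ∫⁻ x, ENNReal.ofReal (ww π η k (x + z) ^ (2 * k)) ∂γ ≠ ∞ := by
        let Fe : EuclideanSpace ℝ (Fin d) → ℝ≥0∞ := fun x => ENNReal.ofReal (Real.exp (2 * g π η x))
        have hFe : Measurable Fe :=
          (Real.continuous_exp.comp (continuous_const.mul hgc)).measurable.ennreal_ofReal
        have h1 : ∫⁻ z, (∫⁻ x, Fe (x + z) ∂γ) ∂η ≤ ENNReal.ofReal (Real.exp (4 * M ^ 2)) := by
          have h2 : ∫⁻ x, ENNReal.ofReal (mix η x) * Fe x = ∫⁻ z, (∫⁻ x, Fe (x + z) ∂γ) ∂η :=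
            lint_mix Fe hFe
          rw [← h2]
          refine le_trans (lintegral_mono fun x => ?_) hchi
          have h3 : mix π x ^ 2 / mix η x = mix η x * Real.exp (2 * g π η x) := by
            rw [hpq x, show 2 * g π η x = g π η x + g π η x by ring, Real.exp_add]
            have := (hq0 x).ne'
            field_simp
          rw [h3, ENNReal.ofReal_mul (hq0 x).le]
        have hmz : Measurable fun z => ∫⁻ x, Fe (x + z) ∂γ := by
          have : Measurable fun p : EuclideanSpace ℝ (Fin d) × EuclideanSpace ℝ (Fin d) =>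
              Fe (p.2 + p.1) := hFe.comp (by fun_prop)
          exact this.lintegral_prod_right'
        have h4 := ae_lt_top hmz (ne_top_of_le_ne_top ENNReal.ofReal_ne_top h1)
        filter_upwards [h4] with z hz
        have h5 : ∫⁻ x, ENNReal.ofReal (ww π η k (x + z) ^ (2 * k)) ∂γ ≤
            ∫⁻ x, (1 + Fe (x + z)) ∂γ := by
          refine lintegral_mono fun x => ?_
          have h6 := Psi_le_exp hk (g π η (x + z) - 1 / 2)
          have h7 := Psi_nonneg k (g π η (x + z) - 1 / 2)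
          have h8 : ww π η k (x + z) ^ (2 * k) ≤ 1 + Real.exp (2 * g π η (x + z)) := by
            calc ww π η k (x + z) ^ (2 * k) ≤ (Psi k (g π η (x + z) - 1 / 2) + 1) ^ (2 * k) := by
                  unfold ww; gcongr; linarith
              _ ≤ Real.exp (2 * max (g π η (x + z) - 1 / 2) 0) := h6
              _ ≤ 1 + Real.exp (2 * g π η (x + z)) := by
                  rcases le_total (g π η (x + z) - 1 / 2) 0 with h | h
                  · rw [max_eq_right h]; simp; exact (Real.exp_pos _).le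
                  · rw [max_eq_left h]
                    have : Real.exp (2 * (g π η (x + z) - 1 / 2)) ≤ Real.exp (2 * g π η (x + z)) :=
                      Real.exp_le_exp.2 (by linarith)
                    linarith
          calc ENNReal.ofReal (ww π η k (x + z) ^ (2 * k)) ≤
              ENNReal.ofReal (1 + Real.exp (2 * g π η (x + z))) := ENNReal.ofReal_le_ofReal h8
            _ = 1 + Fe (x + z) := by
              rw [ENNReal.ofReal_add zero_le_one (Real.exp_pos _).le]; simp [Fe]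
        have h9 : ∫⁻ x, (1 + Fe (x + z)) ∂γ = 1 + ∫⁻ x, Fe (x + z) ∂γ := by
          rw [lintegral_add_left measurable_const]; simp
        rw [h9] at h5
        exact ne_top_of_le_ne_top (ENNReal.add_ne_top.2 ⟨ENNReal.one_ne_top, hz.ne⟩) h5
      have h1 : QE ≤ ENNReal.ofReal (Real.exp 1 * 16 ^ k) * Q1 := by
        have hmz : Measurable fun z => ∫⁻ x, F1 (x + z) ∂γ := by
          have : Measurable fun p : EuclideanSpace ℝ (Fin d) × EuclideanSpace ℝ (Fin d) =>
              F1 (p.2 + p.1) := hF1.comp (by fun_prop)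
          exact this.lintegral_prod_right'
        rw [hQEmix, hQ1mix, ← lintegral_const_mul _ hmz]
        refine lintegral_mono_ae ?_
        filter_upwards [hfin, ae_ball hη] with z hz1 hz2
        exact key hM0 hπ hη hk hkM z (hcase z hz2) hz1
      calc QE ≤ ENNReal.ofReal (Real.exp 1 * 16 ^ k) * (ENNReal.ofReal 16 * H) :=
            h1.trans (by gcongr)
        _ = ENNReal.ofReal (16 * (Real.exp 1 * 16 ^ k)) * H := by
            rw [← mul_assoc, ← ENNReal.ofReal_mul (by positivity)]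
            congr 2; ring
        _ ≤ _ := by
            gcongr
            have : 0 < Real.exp (8 * M ^ 2) := Real.exp_pos _
            linarith
    · -- the bad case
      push Not at hcase
      obtain ⟨z0, hz0, hz0'⟩ := hcase
      have h1 : (1 / 4 : ℝ≥0∞) ≤ ENNReal.ofReal (Real.exp (4 * M ^ 2)) * Q1 := by
        have hmz : Measurable fun z => ∫⁻ x, F1 (x + z) ∂γ := by
          have : Measurable fun p : EuclideanSpace ℝ (Fin d) × EuclideanSpace ℝ (Fin d) =>
              F1 (p.2 + p.1) := hF1.comp (by fun_prop)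
          exact this.lintegral_prod_right'
        rw [hQ1mix, ← lintegral_const_mul _ hmz]
        have h2 : (1 / 4 : ℝ≥0∞) = ∫⁻ _, (1 / 4 : ℝ≥0∞) ∂η := by simp
        rw [h2]
        refine lintegral_mono_ae ?_
        filter_upwards [ae_ball hη] with z hz
        have h3 := mass_comp hAm z0 z hz0 hz
        refine le_trans ?_ h3
        have h4 : (1 / 4 : ℝ≥0∞) = (1 / 2) ^ 2 := by
          rw [one_div, one_div, ← ENNReal.inv_pow]; norm_num
        rw [h4]
        exact pow_le_pow_left' hz0'.le 2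
      calc QE ≤ ENNReal.ofReal (Real.exp (4 * M ^ 2)) * 1 := by rw [mul_one]; exact hQEchi
        _ = ENNReal.ofReal (Real.exp (4 * M ^ 2)) * (4 * (1 / 4)) := by
            congr 1
            exact (ENNReal.mul_div_cancel (by simp) (by simp)).symm
        _ ≤ ENNReal.ofReal (Real.exp (4 * M ^ 2)) *
            (4 * (ENNReal.ofReal (Real.exp (4 * M ^ 2)) * (ENNReal.ofReal 16 * H))) := by
            gcongr
            exact h1.trans (by gcongr)
        _ = ENNReal.ofReal (64 * Real.exp (8 * M ^ 2)) * H := by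
            have h4 : (4 : ℝ≥0∞) = ENNReal.ofReal 4 := by simp
            rw [h4]
            simp only [← mul_assoc]
            rw [← ENNReal.ofReal_mul (by positivity), ← ENNReal.ofReal_mul (by positivity),
              ← ENNReal.ofReal_mul (by positivity)]
            congr 2
            have : Real.exp (8 * M ^ 2) = Real.exp (4 * M ^ 2) * Real.exp (4 * M ^ 2) := by
              rw [← Real.exp_add]; congr 1; ring
            rw [this]; ring
        _ ≤ _ := by
            gcongr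
            have : 0 < Real.exp 1 * 16 ^ k := by positivity
            linarith
  calc ∫⁻ x, ENNReal.ofReal ((mix π x - mix η x) ^ 2 / mix η x) ≤ ENNReal.ofReal 9 * H + QE := hsplit
    _ ≤ ENNReal.ofReal 9 * H +
        ENNReal.ofReal (16 * (Real.exp 1 * 16 ^ k) + 64 * Real.exp (8 * M ^ 2)) * H := by gcongr
    _ = _ := by
        rw [← add_mul, ← ENNReal.ofReal_add (by norm_num) (by positivity), CC, ← hkdef]
        congr 2; ring

lemma mix_lint (π : Measure (EuclideanSpace ℝ (Fin d))) [IsProbabilityMeasure π] :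
    ∫⁻ x, ENNReal.ofReal (mix π x) = 1 := by
  have h := lint_mix (η := π) (fun _ => 1) measurable_const
  simpa using h

lemma mix_integrable (hM0 : 0 ≤ M) (hπ : π (Metric.closedBall 0 M)ᶜ = 0) :
    Integrable (mix π) ∧ ∫ x, mix π x = 1 := by
  have h0 : ∀ x, 0 ≤ mix π x := fun x => (mix_pos hM0 hπ x).le
  have hi : Integrable (mix π) := by
    refine ⟨(mix_cont hM0 hπ).aestronglyMeasurable, ?_⟩
    rw [hasFiniteIntegral_iff_ofReal (Filter.Eventually.of_forall h0), mix_lint]
    exact ENNReal.one_lt_top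
  refine ⟨hi, ?_⟩
  rw [integral_eq_lintegral_of_nonneg_ae (Filter.Eventually.of_forall h0) hi.1, mix_lint]
  simp

lemma hell_integrable (hM0 : 0 ≤ M) (hπ : π (Metric.closedBall 0 M)ᶜ = 0)
    (hη : η (Metric.closedBall 0 M)ᶜ = 0) :
    Integrable fun x => (Real.sqrt (mix π x) - Real.sqrt (mix η x)) ^ 2 := by
  have hpc : Continuous (mix π) := mix_cont hM0 hπ
  have hqc : Continuous (mix η) := mix_cont hM0 hη
  refine ((mix_integrable hM0 hπ).1.add (mix_integrable hM0 hη).1).mono'
    ((hpc.sqrt.sub hqc.sqrt).pow 2).aestronglyMeasurable ?_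
  refine Filter.Eventually.of_forall fun x => ?_
  rw [Real.norm_eq_abs, abs_of_nonneg (sq_nonneg _)]
  have h1 := Real.sq_sqrt (mix_pos hM0 hπ x).le
  have h2 := Real.sq_sqrt (mix_pos hM0 hη x).le
  have h3 := Real.sqrt_nonneg (mix π x)
  have h4 := Real.sqrt_nonneg (mix η x)
  simp only [Pi.add_apply]
  nlinarith [mul_nonneg h3 h4]

/-- the chi-squared comparison -/
theorem chi_main (hM0 : 0 ≤ M) (hπ : π (Metric.closedBall 0 M)ᶜ = 0)
    (hη : η (Metric.closedBall 0 M)ᶜ = 0) :
    Integrable (fun x => (mix π x - mix η x) ^ 2 / mix η x) ∧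
      ∫ x, (mix π x - mix η x) ^ 2 / mix η x ≤
        CC M * ∫ x, (Real.sqrt (mix π x) - Real.sqrt (mix η x)) ^ 2 := by
  have hpc : Continuous (mix π) := mix_cont hM0 hπ
  have hqc : Continuous (mix η) := mix_cont hM0 hη
  have hq0 : ∀ x, 0 < mix η x := mix_pos hM0 hη
  have h1 := chi_lint (M := M) hM0 hπ hη
  have hH := hell_integrable hM0 hπ hη
  have e1 : ∫⁻ x, ENNReal.ofReal ((Real.sqrt (mix π x) - Real.sqrt (mix η x)) ^ 2) =
      ENNReal.ofReal (∫ x, (Real.sqrt (mix π x) - Real.sqrt (mix η x)) ^ 2) :=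
    (ofReal_integral_eq_lintegral_ofReal hH (Filter.Eventually.of_forall fun x => sq_nonneg _)).symm
  rw [e1, ← ENNReal.ofReal_mul (CC_pos M).le] at h1
  have h0 : ∀ x, 0 ≤ (mix π x - mix η x) ^ 2 / mix η x := fun x =>
    div_nonneg (sq_nonneg _) (hq0 x).le
  have hi : Integrable (fun x => (mix π x - mix η x) ^ 2 / mix η x) := by
    refine ⟨(((hpc.sub hqc).pow 2).div hqc fun x => (hq0 x).ne').aestronglyMeasurable, ?_⟩
    rw [hasFiniteIntegral_iff_ofReal (Filter.Eventually.of_forall h0)]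
    exact h1.trans_lt ENNReal.ofReal_lt_top
  refine ⟨hi, ?_⟩
  rw [← ofReal_integral_eq_lintegral_ofReal hi (Filter.Eventually.of_forall h0)] at h1
  have h2 : 0 ≤ CC M * ∫ x, (Real.sqrt (mix π x) - Real.sqrt (mix η x)) ^ 2 :=
    mul_nonneg (CC_pos M).le (integral_nonneg fun x => sq_nonneg _)
  exact (ENNReal.ofReal_le_ofReal_iff h2).1 h1

/-- the Kullback-Leibler comparison -/
theorem kl_main (hM0 : 0 ≤ M) (hπ : π (Metric.closedBall 0 M)ᶜ = 0)
    (hη : η (Metric.closedBall 0 M)ᶜ = 0) :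
    Integrable (fun x => mix π x * Real.log (mix π x / mix η x)) ∧
      ∫ x, mix π x * Real.log (mix π x / mix η x) ≤
        CC M * ∫ x, (Real.sqrt (mix π x) - Real.sqrt (mix η x)) ^ 2 := by
  have hpc : Continuous (mix π) := mix_cont hM0 hπ
  have hqc : Continuous (mix η) := mix_cont hM0 hη
  have hp0 : ∀ x, 0 < mix π x := mix_pos hM0 hπ
  have hq0 : ∀ x, 0 < mix η x := mix_pos hM0 hη
  obtain ⟨hci, hc⟩ := chi_main (M := M) hM0 hπ hη
  obtain ⟨hpi, hp1⟩ := mix_integrable (M := M) hM0 hπ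
  obtain ⟨hqi, hq1⟩ := mix_integrable (M := M) hM0 hη
  have hup : ∀ x, mix π x * Real.log (mix π x / mix η x) ≤
      (mix π x - mix η x) ^ 2 / mix η x + (mix π x - mix η x) := by
    intro x
    have h1 := Real.log_le_sub_one_of_pos (div_pos (hp0 x) (hq0 x))
    have h2 := mul_le_mul_of_nonneg_left h1 (hp0 x).le
    refine h2.trans (le_of_eq ?_)
    have := (hq0 x).ne'
    field_simp
    ring
  have hlow : ∀ x, mix π x - mix η x ≤ mix π x * Real.log (mix π x / mix η x) := by
    intro x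
    have h1 := Real.one_sub_inv_le_log_of_pos (div_pos (hp0 x) (hq0 x))
    have h2 := mul_le_mul_of_nonneg_left h1 (hp0 x).le
    refine le_trans (le_of_eq ?_) h2
    have h3 := (hq0 x).ne'
    have h4 := (hp0 x).ne'
    field_simp
  have hlc : Continuous fun x => Real.log (mix π x / mix η x) :=
    (hpc.div hqc fun x => (hq0 x).ne').log fun x => (div_pos (hp0 x) (hq0 x)).ne'
  have hi : Integrable (fun x => mix π x * Real.log (mix π x / mix η x)) := by
    refine (hci.add (hpi.add hqi)).mono' (hpc.mul hlc).aestronglyMeasurable ?_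
    refine Filter.Eventually.of_forall fun x => ?_
    have h0 : 0 ≤ (mix π x - mix η x) ^ 2 / mix η x := div_nonneg (sq_nonneg _) (hq0 x).le
    simp only [Pi.add_apply]
    rw [Real.norm_eq_abs, abs_le]
    constructor
    · linarith [hlow x, hp0 x, hq0 x]
    · linarith [hup x, hp0 x, hq0 x]
  refine ⟨hi, ?_⟩
  calc ∫ x, mix π x * Real.log (mix π x / mix η x) ≤
      ∫ x, ((mix π x - mix η x) ^ 2 / mix η x + (mix π x - mix η x)) :=
        integral_mono hi (hci.add (hpi.sub hqi)) hup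
    _ = ∫ x, (mix π x - mix η x) ^ 2 / mix η x := by
        have e1 : ∫ x, ((mix π x - mix η x) ^ 2 / mix η x + (mix π x - mix η x)) =
            (∫ x, (mix π x - mix η x) ^ 2 / mix η x) + ∫ x, (mix π x - mix η x) :=
          integral_add hci (hpi.sub hqi)
        have e2 : ∫ x, (mix π x - mix η x) = (∫ x, mix π x) - ∫ x, mix η x := integral_sub hpi hqi
        rw [e1, e2, hp1, hq1]; ring
    _ ≤ _ := hc

end Pool.Agent.R972.GM
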