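import Mathlib

/-!
# An `L^{2k}` Poincaré type inequality for the standard Gaussian measure, by rotation
-/

set_option autoImplicit false

open MeasureTheory ProbabilityTheory Set
open scoped ENNReal NNReal

namespace Pool.Agent.R972.GM

/-- bound for the even moments -/
lemma moment_le (k : ℕ) (hk : 1 ≤ k) :
    ∫⁻ x, ENNReal.ofReal (x ^ (2 * k)) ∂(gaussianReal 0 1) ≤ ENNReal.ofReal ((12 * k : ℝ) ^ k) := by
  have hk0 : (0:ℝ) < k := by exact_mod_cast hk
  set a := Real.sqrt (2 * k) with ha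
  have ha0 : 0 < a := Real.sqrt_pos.2 (by positivity)
  have ha2 : a ^ 2 = 2 * k := Real.sq_sqrt (by positivity)
  set c : ℝ := (2 * k) ^ k with hc
  have hak : a ^ (2 * k) = c := by rw [pow_mul, ha2]
  have hc0 : 0 < c := by positivity
  have h1 : ∀ x : ℝ, x ^ (2 * k) ≤ c * (Real.exp (a * x) + Real.exp (-a * x)) := by
    intro x
    have h2 := Real.pow_div_factorial_le_exp (a * |x|) (by positivity) (2 * k)
    have h3 : ((2 * k).factorial : ℝ) ≤ c ^ 2 := by
      have : (2 * k).factorial ≤ (2 * k) ^ (2 * k) := Nat.factorial_le_pow _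
      calc ((2 * k).factorial : ℝ) ≤ ((2 * k : ℕ) : ℝ) ^ (2 * k) := by exact_mod_cast this
        _ = c ^ 2 := by rw [hc, ← pow_mul]; push_cast; ring
    have h4 : (a * |x|) ^ (2 * k) = c * x ^ (2 * k) := by
      rw [mul_pow, hak, pow_mul |x|, sq_abs, ← pow_mul]
    have h5 : Real.exp (a * |x|) ≤ Real.exp (a * x) + Real.exp (-a * x) := by
      rcases abs_cases x with h | h
      · rw [h.1]; linarith [Real.exp_pos (-a * x)]
      · rw [h.1]
        have : a * -x = -a * x := by ring
        rw [this]; linarith [Real.exp_pos (a * x)]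
    have hf : (0:ℝ) < ((2 * k).factorial : ℝ) := by exact_mod_cast Nat.factorial_pos _
    rw [h4, div_le_iff₀ hf] at h2
    have h6 : c * x ^ (2 * k) ≤ (Real.exp (a * x) + Real.exp (-a * x)) * c ^ 2 := by
      calc c * x ^ (2 * k) ≤ Real.exp (a * |x|) * (2 * k).factorial := h2
        _ ≤ (Real.exp (a * x) + Real.exp (-a * x)) * c ^ 2 := by gcongr
    nlinarith
  have hI : ∀ t : ℝ, Integrable (fun x => Real.exp (t * x)) (gaussianReal 0 1) := fun t =>
    integrable_exp_mul_gaussianReal t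
  have hE : ∀ t : ℝ, ∫ x, Real.exp (t * x) ∂(gaussianReal 0 1) = Real.exp (t ^ 2 / 2) := by
    intro t
    have := congrFun (mgf_id_gaussianReal (μ := 0) (v := 1)) t
    simp only [mgf, id] at this
    rw [this]; simp
  calc ∫⁻ x, ENNReal.ofReal (x ^ (2 * k)) ∂(gaussianReal 0 1) ≤
      ∫⁻ x, ENNReal.ofReal (c * (Real.exp (a * x) + Real.exp (-a * x))) ∂(gaussianReal 0 1) :=
        lintegral_mono fun x => ENNReal.ofReal_le_ofReal (h1 x)
    _ = ENNReal.ofReal (∫ x, c * (Real.exp (a * x) + Real.exp (-a * x)) ∂(gaussianReal 0 1)) := by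
        have hInt : Integrable (fun x => c * (Real.exp (a * x) + Real.exp (-a * x)))
            (gaussianReal 0 1) := ((hI a).add (hI (-a))).const_mul c
        rw [ofReal_integral_eq_lintegral_ofReal hInt]
        exact Filter.Eventually.of_forall fun x => by positivity
    _ ≤ _ := by
        apply ENNReal.ofReal_le_ofReal
        rw [integral_const_mul, integral_add (hI a) (hI (-a)), hE, hE]
        have h7 : (-a) ^ 2 / 2 = a ^ 2 / 2 := by ring
        rw [h7, ha2]
        have h8 : Real.exp (2 * k / 2) ≤ 3 ^ k := by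
          have : (2 * (k:ℝ) / 2) = k * 1 := by ring
          rw [this, Real.exp_nat_mul]
          gcongr
          exact (Real.exp_one_lt_d9.trans (by norm_num)).le
        have h9 : (2:ℝ) ≤ 2 ^ k := by
          calc (2:ℝ) = 2 ^ 1 := by norm_num
            _ ≤ 2 ^ k := pow_le_pow_right₀ (by norm_num) hk
        calc c * (Real.exp (2 * k / 2) + Real.exp (2 * k / 2)) = 2 * (c * Real.exp (2 * k / 2)) := by ring
          _ ≤ 2 ^ k * (c * 3 ^ k) := by gcongr
          _ = (12 * k) ^ k := by rw [hc, ← mul_pow, ← mul_pow]; congr 1; ring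

section

variable {E : Type*} [NormedAddCommGroup E] [InnerProductSpace ℝ E] [FiniteDimensional ℝ E]
  [MeasurableSpace E] [BorelSpace E]

lemma dual_moment_le (L : StrongDual ℝ E) (k : ℕ) (hk : 1 ≤ k) :
    ∫⁻ y, ENNReal.ofReal ((L y) ^ (2 * k)) ∂(stdGaussian E) ≤
      ENNReal.ofReal ((12 * k : ℝ) ^ k) * ENNReal.ofReal (‖L‖ ^ (2 * k)) := by
  have h1 := IsGaussian.map_eq_gaussianReal (μ := stdGaussian E) L
  rw [integral_strongDual_stdGaussian, variance_dual_stdGaussian] at h1
  have h2 : gaussianReal 0 (‖L‖ ^ 2).toNNReal = (gaussianReal 0 1).map (fun x => ‖L‖ * x) := by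
    rw [gaussianReal_map_const_mul]
    congr 1
    · simp
    · ext; simp
  have h3 : ∫⁻ y, ENNReal.ofReal ((L y) ^ (2 * k)) ∂(stdGaussian E) =
      ∫⁻ x, ENNReal.ofReal (x ^ (2 * k)) ∂((stdGaussian E).map L) := by
    rw [lintegral_map (by fun_prop) (by fun_prop)]
  rw [h3, h1, h2, lintegral_map (by fun_prop) (by fun_prop)]
  have h4 : ∀ x : ℝ, ENNReal.ofReal ((‖L‖ * x) ^ (2 * k)) =
      ENNReal.ofReal (‖L‖ ^ (2 * k)) * ENNReal.ofReal (x ^ (2 * k)) := by
    intro x
    rw [mul_pow, ENNReal.ofReal_mul (by positivity)]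
  simp_rw [h4]
  rw [lintegral_const_mul _ (by fun_prop), mul_comm]
  gcongr
  exact moment_le k hk

lemma meas_G (u : E → ℝ) : Measurable fun q : E × E => fderiv ℝ u q.1 q.2 := by
  have h : (fun q : E × E => fderiv ℝ u q.1 q.2) = fun q => ∑ i, inner ℝ (stdOrthonormalBasis ℝ E i) q.2 *
      fderiv ℝ u q.1 (stdOrthonormalBasis ℝ E i) := by
    funext q
    conv_lhs => rw [← (stdOrthonormalBasis ℝ E).sum_repr' q.2]
    rw [map_sum]
    simp
  rw [h]
  refine Finset.measurable_sum _ fun i _ => ?_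
  refine Measurable.mul (by fun_prop) ?_
  exact (measurable_fderiv_apply_const ℝ u _).comp measurable_fst

/-- the derivative along the rotation -/
noncomputable def Fr (u : E → ℝ) (t : ℝ) (p : E × E) : ℝ :=
  fderiv ℝ u (ContinuousLinearMap.rotation (Real.pi / 2 * t) p).1
    (ContinuousLinearMap.rotation (Real.pi / 2 * t) p).2

lemma Fr_meas (u : E → ℝ) : Measurable fun q : ℝ × (E × E) => Fr u q.1 q.2 := by
  have : Measurable fun q : ℝ × (E × E) =>
      (ContinuousLinearMap.rotation (Real.pi / 2 * q.1) q.2 : E × E) := by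
    simp only [ContinuousLinearMap.rotation_apply]
    exact Continuous.measurable (by fun_prop)
  exact (meas_G u).comp this

lemma ftc {u : E → ℝ} (hu : Differentiable ℝ u) {b : E → ℝ} (hb : Continuous b)
    (hub : ∀ x, ‖fderiv ℝ u x‖ ≤ b x) (p : E × E) :
    IntervalIntegrable (fun t => Fr u t p) volume 0 1 ∧
      u p.2 - u p.1 = ∫ t in (0:ℝ)..1, Real.pi / 2 * Fr u t p := by
  have hc1 : Continuous fun t : ℝ => (ContinuousLinearMap.rotation (Real.pi / 2 * t) p : E × E).1 := by
    simp only [ContinuousLinearMap.rotation_apply]; fun_prop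
  have hc2 : Continuous fun t : ℝ => (ContinuousLinearMap.rotation (Real.pi / 2 * t) p : E × E).2 := by
    simp only [ContinuousLinearMap.rotation_apply]; fun_prop
  have hint : IntervalIntegrable (fun t => Fr u t p) volume 0 1 := by
    have hg : Continuous fun t : ℝ => b (ContinuousLinearMap.rotation (Real.pi / 2 * t) p : E × E).1 *
        ‖(ContinuousLinearMap.rotation (Real.pi / 2 * t) p : E × E).2‖ := (hb.comp hc1).mul hc2.norm
    refine (hg.intervalIntegrable 0 1).mono_fun ?_ ?_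
    · exact ((Fr_meas u).comp (measurable_id.prodMk measurable_const)).aestronglyMeasurable
    · refine Filter.Eventually.of_forall fun t => ?_
      have h1 := (fderiv ℝ u (ContinuousLinearMap.rotation (Real.pi / 2 * t) p : E × E).1).le_opNorm
        (ContinuousLinearMap.rotation (Real.pi / 2 * t) p : E × E).2
      refine h1.trans ?_
      beta_reduce
      rw [Real.norm_eq_abs]
      refine le_trans ?_ (le_abs_self _)
      gcongr
      exact hub _
  refine ⟨hint, ?_⟩
  have hd : ∀ t : ℝ, HasDerivAt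
      (fun t => u (ContinuousLinearMap.rotation (Real.pi / 2 * t) p : E × E).1)
      (Real.pi / 2 * Fr u t p) t := by
    intro t
    have h1 : HasDerivAt (fun t : ℝ => (ContinuousLinearMap.rotation (Real.pi / 2 * t) p : E × E).1)
        ((Real.pi / 2) • (ContinuousLinearMap.rotation (Real.pi / 2 * t) p : E × E).2) t := by
      simp only [ContinuousLinearMap.rotation_apply]
      have hθ : HasDerivAt (fun t : ℝ => Real.pi / 2 * t) (Real.pi / 2) t := by
        simpa using (hasDerivAt_id t).const_mul (Real.pi / 2)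
      have h2 := (hθ.cos.smul_const p.1).add (hθ.sin.smul_const p.2)
      refine h2.congr_deriv ?_
      rw [smul_add, smul_smul, smul_smul]
      congr 2
      · ring
      · ring
    have h3 := (hu (ContinuousLinearMap.rotation (Real.pi / 2 * t) p : E × E).1).hasFDerivAt.comp_hasDerivAt t h1
    refine h3.congr_deriv ?_
    rw [map_smul, Fr]; rfl
  rw [intervalIntegral.integral_eq_sub_of_hasDerivAt (fun t _ => hd t) (hint.const_mul _)]
  simp [ContinuousLinearMap.rotation_apply]

/-- the rotation inequality -/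
theorem rotp {u : E → ℝ} (hu : Differentiable ℝ u) {b : E → ℝ} (hb : Continuous b)
    (hub : ∀ x, ‖fderiv ℝ u x‖ ≤ b x) (k : ℕ) (hk : 1 ≤ k) :
    ∫⁻ p, ENNReal.ofReal ((u p.2 - u p.1) ^ (2 * k)) ∂((stdGaussian E).prod (stdGaussian E)) ≤
      ENNReal.ofReal ((Real.pi / 2) ^ (2 * k) * (12 * k) ^ k) *
        ∫⁻ x, ENNReal.ofReal (‖fderiv ℝ u x‖ ^ (2 * k)) ∂(stdGaussian E) := by
  set γ := stdGaussian E
  have hm1 : Measurable fun q : ℝ × (E × E) =>
      ENNReal.ofReal ((Real.pi / 2 * Fr u q.1 q.2) ^ (2 * k)) :=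
    (((Fr_meas u).const_mul _).pow_const _).ennreal_ofReal
  -- Jensen
  have h1 : ∀ p : E × E, ENNReal.ofReal ((u p.2 - u p.1) ^ (2 * k)) ≤
      ∫⁻ t in Ioc (0:ℝ) 1, ENNReal.ofReal ((Real.pi / 2 * Fr u t p) ^ (2 * k)) := by
    intro p
    obtain ⟨hint, heq⟩ := ftc hu hb hub p
    by_cases hfin : ∫⁻ t in Ioc (0:ℝ) 1, ENNReal.ofReal ((Real.pi / 2 * Fr u t p) ^ (2 * k)) = ∞
    · rw [hfin]; exact le_top
    have hprob : IsProbabilityMeasure (volume.restrict (Ioc (0:ℝ) 1)) := ⟨by simp⟩
    have hev : Even (2 * k) := even_two_mul k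
    have hint2 : Integrable (fun t => (Real.pi / 2 * Fr u t p) ^ (2 * k)) (volume.restrict (Ioc (0:ℝ) 1)) := by
      refine ⟨((((Fr_meas u).comp (measurable_id.prodMk measurable_const)).const_mul _).pow_const
        _).aestronglyMeasurable, ?_⟩
      rw [hasFiniteIntegral_iff_ofReal]
      · exact lt_top_iff_ne_top.2 hfin
      · exact Filter.Eventually.of_forall fun t => hev.pow_nonneg _
    have hint1 : Integrable (fun t => Real.pi / 2 * Fr u t p) (volume.restrict (Ioc (0:ℝ) 1)) :=
      ((intervalIntegrable_iff_integrableOn_Ioc_of_le zero_le_one).1 hint).const_mul _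
    have hJ := ConvexOn.map_integral_le (μ := volume.restrict (Ioc (0:ℝ) 1))
      (f := fun t => Real.pi / 2 * Fr u t p) hev.convexOn_pow (by fun_prop) isClosed_univ
      (by simp) hint1 hint2
    rw [heq, intervalIntegral.integral_of_le zero_le_one]
    refine (ENNReal.ofReal_le_ofReal hJ).trans (le_of_eq ?_)
    rw [ofReal_integral_eq_lintegral_ofReal hint2]
    exact Filter.Eventually.of_forall fun t => hev.pow_nonneg _
  have hrot : ∀ t : ℝ, ∫⁻ p, ENNReal.ofReal ((Real.pi / 2 * Fr u t p) ^ (2 * k)) ∂(γ.prod γ) =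
      ∫⁻ p, ENNReal.ofReal ((Real.pi / 2 * fderiv ℝ u p.1 p.2) ^ (2 * k)) ∂(γ.prod γ) := by
    intro t
    have h2 := IsGaussian.map_rotation_eq_self (μ := γ) (by simp [γ]) (Real.pi / 2 * t)
    conv_rhs => rw [← h2]
    rw [lintegral_map ((((meas_G u).const_mul _).pow_const _).ennreal_ofReal)
      (ContinuousLinearMap.measurable _)]
    rfl
  have hc0 : (0:ℝ) ≤ (Real.pi / 2) ^ (2 * k) := by positivity
  calc ∫⁻ p, ENNReal.ofReal ((u p.2 - u p.1) ^ (2 * k)) ∂(γ.prod γ) ≤
      ∫⁻ p, (∫⁻ t in Ioc (0:ℝ) 1, ENNReal.ofReal ((Real.pi / 2 * Fr u t p) ^ (2 * k))) ∂(γ.prod γ) :=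
        lintegral_mono h1
    _ = ∫⁻ t in Ioc (0:ℝ) 1, ∫⁻ p, ENNReal.ofReal ((Real.pi / 2 * Fr u t p) ^ (2 * k)) ∂(γ.prod γ) := by
        rw [lintegral_lintegral_swap]
        exact (hm1.comp measurable_swap).aemeasurable
    _ = ∫⁻ p, ENNReal.ofReal ((Real.pi / 2 * fderiv ℝ u p.1 p.2) ^ (2 * k)) ∂(γ.prod γ) := by
        simp_rw [hrot]; simp
    _ = ∫⁻ x, ∫⁻ y, ENNReal.ofReal ((Real.pi / 2 * fderiv ℝ u x y) ^ (2 * k)) ∂γ ∂γ := by
        rw [lintegral_prod]
        exact ((((meas_G u).const_mul _).pow_const _).ennreal_ofReal).aemeasurable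
    _ ≤ ∫⁻ x, ENNReal.ofReal ((Real.pi / 2) ^ (2 * k) * (12 * k) ^ k) *
          ENNReal.ofReal (‖fderiv ℝ u x‖ ^ (2 * k)) ∂γ := by
        refine lintegral_mono fun x => ?_
        have h3 : ∀ y, ENNReal.ofReal ((Real.pi / 2 * fderiv ℝ u x y) ^ (2 * k)) =
            ENNReal.ofReal ((Real.pi / 2) ^ (2 * k)) * ENNReal.ofReal ((fderiv ℝ u x y) ^ (2 * k)) := by
          intro y
          rw [mul_pow, ENNReal.ofReal_mul hc0]
        simp_rw [h3]
        rw [lintegral_const_mul _ (by fun_prop), ENNReal.ofReal_mul hc0, mul_assoc]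
        gcongr
        exact dual_moment_le _ k hk
    _ = _ := by
        rw [lintegral_const_mul]
        exact ((measurable_fderiv ℝ u).norm.pow_const _).ennreal_ofReal

end

end Pool.Agent.R972.GM
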