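import Pool.Agent.R972.GM.Defs
import Pool.Agent.R972.GM.Rot
import Pool.Agent.H988R2.Gauss

set_option autoImplicit false

open MeasureTheory ProbabilityTheory Set
open scoped ENNReal

namespace Pool.Agent.R972.GM

variable {d : ℕ}

lemma phi_eq (x : EuclideanSpace ℝ (Fin d)) : phi d x = Pool.Agent.H988R2.gdens (Fin d) x := by
  unfold phi Pool.Agent.H988R2.gdens
  congr 1
  rw [Fintype.card_fin, Real.sqrt_eq_rpow, ← Real.rpow_neg (by positivity), ← Real.rpow_natCast,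
    ← Real.rpow_mul (by positivity)]
  congr 1
  ring

lemma phi_pos (x : EuclideanSpace ℝ (Fin d)) : 0 < phi d x := by unfold phi; positivity

lemma phi_cont : Continuous (phi d) := by unfold phi; fun_prop

lemma phi_sub (x z : EuclideanSpace ℝ (Fin d)) :
    phi d (x - z) = phi d x * Real.exp (inner ℝ x z - ‖z‖ ^ 2 / 2) := by
  unfold phi
  rw [mul_assoc, ← Real.exp_add, norm_sub_sq_real]
  congr 2
  ring

lemma std_eq : stdGaussian (EuclideanSpace ℝ (Fin d)) =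
    (volume : Measure (EuclideanSpace ℝ (Fin d))).withDensity fun x => ENNReal.ofReal (phi d x) := by
  rw [Pool.Agent.H988R2.stdGaussian_eq]
  simp_rw [phi_eq]

/-- integrals with respect to the translated Gaussian measure -/
lemma lint_std (F : EuclideanSpace ℝ (Fin d) → ℝ≥0∞) (hF : Measurable F)
    (z : EuclideanSpace ℝ (Fin d)) :
    ∫⁻ x, F (x + z) ∂(stdGaussian (EuclideanSpace ℝ (Fin d))) =
      ∫⁻ x, ENNReal.ofReal (phi d (x - z)) * F x := by
  have hp : Measurable fun x : EuclideanSpace ℝ (Fin d) => ENNReal.ofReal (phi d x) :=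
    phi_cont.measurable.ennreal_ofReal
  rw [std_eq, lintegral_withDensity_eq_lintegral_mul _ hp (by fun_prop)]
  rw [← lintegral_add_right_eq_self (fun x => ENNReal.ofReal (phi d (x - z)) * F x) z]
  refine lintegral_congr fun x => ?_
  simp [Pi.mul_apply]

/-- the Laplace transform factor of the mixture density -/
noncomputable def Lp (π : Measure (EuclideanSpace ℝ (Fin d))) (x : EuclideanSpace ℝ (Fin d)) : ℝ :=
  ∫ z, Real.exp (inner ℝ x z - ‖z‖ ^ 2 / 2) ∂π

lemma mix_eq (π : Measure (EuclideanSpace ℝ (Fin d))) (x : EuclideanSpace ℝ (Fin d)) :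
    mix π x = phi d x * Lp π x := by
  unfold mix Lp
  simp_rw [phi_sub]
  rw [integral_const_mul]

section

variable {π : Measure (EuclideanSpace ℝ (Fin d))} [IsProbabilityMeasure π] {M : ℝ}

lemma ae_ball (hM : π (Metric.closedBall 0 M)ᶜ = 0) : ∀ᵐ z ∂π, ‖z‖ ≤ M := by
  have : ∀ᵐ z ∂π, z ∈ Metric.closedBall 0 M := by rw [ae_iff]; exact hM
  filter_upwards [this] with z hz
  simpa using hz

lemma exp_bound {x z : EuclideanSpace ℝ (Fin d)} (hM0 : 0 ≤ M) (hz : ‖z‖ ≤ M) {r : ℝ}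
    (hr : ‖x‖ ≤ r) : Real.exp (inner ℝ x z - ‖z‖ ^ 2 / 2) ≤ Real.exp (r * M) := by
  rw [Real.exp_le_exp]
  have h1 := real_inner_le_norm x z
  have h2 : ‖x‖ * ‖z‖ ≤ r * M := mul_le_mul hr hz (norm_nonneg _) ((norm_nonneg _).trans hr)
  have h3 := sq_nonneg ‖z‖
  linarith

lemma exp_int (hM0 : 0 ≤ M) (hM : π (Metric.closedBall 0 M)ᶜ = 0) (x : EuclideanSpace ℝ (Fin d)) :
    Integrable (fun z => Real.exp (inner ℝ x z - ‖z‖ ^ 2 / 2)) π := by
  refine Integrable.of_bound (Continuous.aestronglyMeasurable (by fun_prop)) (Real.exp (‖x‖ * M)) ?_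
  filter_upwards [ae_ball hM] with z hz
  rw [Real.norm_eq_abs, abs_of_pos (Real.exp_pos _)]
  exact exp_bound hM0 hz le_rfl

lemma Lp_pos (hM0 : 0 ≤ M) (hM : π (Metric.closedBall 0 M)ᶜ = 0) (x : EuclideanSpace ℝ (Fin d)) :
    0 < Lp π x := by
  unfold Lp
  rw [integral_pos_iff_support_of_nonneg (fun z => (Real.exp_pos _).le) (exp_int hM0 hM x)]
  have : (Function.support fun z => Real.exp (inner ℝ x z - ‖z‖ ^ 2 / 2)) = univ := by
    ext z; simp [(Real.exp_pos _).ne']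
  rw [this]; simp

lemma mix_pos (hM0 : 0 ≤ M) (hM : π (Metric.closedBall 0 M)ᶜ = 0) (x : EuclideanSpace ℝ (Fin d)) :
    0 < mix π x := by
  rw [mix_eq]; exact mul_pos (phi_pos x) (Lp_pos hM0 hM x)

lemma Lp_deriv (hM0 : 0 ≤ M) (hM : π (Metric.closedBall 0 M)ᶜ = 0)
    (x : EuclideanSpace ℝ (Fin d)) :
    ∃ D : EuclideanSpace ℝ (Fin d) →L[ℝ] ℝ, HasFDerivAt (Lp π) D x ∧ ‖D‖ ≤ M * Lp π x := by
  let F : EuclideanSpace ℝ (Fin d) → EuclideanSpace ℝ (Fin d) → ℝ :=
    fun x z => Real.exp (inner ℝ x z - ‖z‖ ^ 2 / 2)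
  let F' : EuclideanSpace ℝ (Fin d) → EuclideanSpace ℝ (Fin d) →
      (EuclideanSpace ℝ (Fin d) →L[ℝ] ℝ) :=
    fun x z => Real.exp (inner ℝ x z - ‖z‖ ^ 2 / 2) • (innerSL ℝ z)
  have hF'n : ∀ x z, ‖F' x z‖ = Real.exp (inner ℝ x z - ‖z‖ ^ 2 / 2) * ‖z‖ := by
    intro x z
    simp only [F', norm_smul, innerSL_apply_norm, Real.norm_eq_abs, abs_of_pos (Real.exp_pos _)]
  have h1 : HasFDerivAt (fun x => ∫ z, F x z ∂π) (∫ z, F' x z ∂π) x := by
    refine hasFDerivAt_integral_of_dominated_of_fderiv_le (s := Metric.ball x 1)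
      (bound := fun _ => Real.exp ((‖x‖ + 1) * M) * M) (Metric.ball_mem_nhds x one_pos) ?_
      (exp_int hM0 hM x) ?_ ?_ (integrable_const _) ?_
    · exact Filter.Eventually.of_forall fun y => Continuous.aestronglyMeasurable (by fun_prop)
    · refine Continuous.aestronglyMeasurable ?_
      simp only [F']
      exact (by fun_prop : Continuous fun z : EuclideanSpace ℝ (Fin d) =>
        Real.exp (inner ℝ x z - ‖z‖ ^ 2 / 2)).smul (innerSL ℝ).continuous
    · filter_upwards [ae_ball hM] with z hz y hy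
      rw [hF'n]
      have hy' : ‖y‖ ≤ ‖x‖ + 1 := by
        rw [Metric.mem_ball, dist_eq_norm] at hy
        have := norm_le_norm_add_norm_sub' y x
        linarith
      exact mul_le_mul (exp_bound hM0 hz hy') hz (norm_nonneg _) (Real.exp_pos _).le
    · refine Filter.Eventually.of_forall fun z y _ => ?_
      have h2 : HasFDerivAt (fun y : EuclideanSpace ℝ (Fin d) => inner ℝ y z - ‖z‖ ^ 2 / 2)
          (innerSL ℝ z) y := by
        have h3 : HasFDerivAt (fun y : EuclideanSpace ℝ (Fin d) => innerSL ℝ z y)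
          (innerSL ℝ z) y := (innerSL ℝ z).hasFDerivAt
        have h4 : (fun y : EuclideanSpace ℝ (Fin d) => inner ℝ y z - ‖z‖ ^ 2 / 2) =
            fun y => innerSL ℝ z y - ‖z‖ ^ 2 / 2 := by
          funext y
          rw [innerSL_apply_apply, real_inner_comm]
        rw [h4]
        exact h3.sub_const _
      exact h2.exp
  refine ⟨_, h1, ?_⟩
  refine (norm_integral_le_integral_norm _).trans ?_
  have h2 : ∫ z, ‖F' x z‖ ∂π ≤ ∫ z, M * Real.exp (inner ℝ x z - ‖z‖ ^ 2 / 2) ∂π := by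
    refine integral_mono_of_nonneg (Filter.Eventually.of_forall fun z => norm_nonneg _)
      ((exp_int hM0 hM x).const_mul M) ?_
    filter_upwards [ae_ball hM] with z hz
    rw [hF'n, mul_comm]
    gcongr
  refine h2.trans (le_of_eq ?_)
  rw [integral_const_mul]; rfl

lemma Lp_cont (hM0 : 0 ≤ M) (hM : π (Metric.closedBall 0 M)ᶜ = 0) : Continuous (Lp π) := by
  rw [continuous_iff_continuousAt]
  intro x
  obtain ⟨D, hD, -⟩ := Lp_deriv hM0 hM x
  exact hD.continuousAt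

lemma mix_cont (hM0 : 0 ≤ M) (hM : π (Metric.closedBall 0 M)ᶜ = 0) : Continuous (mix π) := by
  have : mix π = fun x => phi d x * Lp π x := funext (mix_eq π)
  rw [this]
  exact phi_cont.mul (Lp_cont hM0 hM)

lemma log_deriv (hM0 : 0 ≤ M) (hM : π (Metric.closedBall 0 M)ᶜ = 0)
    (x : EuclideanSpace ℝ (Fin d)) :
    ∃ D : EuclideanSpace ℝ (Fin d) →L[ℝ] ℝ,
      HasFDerivAt (fun x => Real.log (Lp π x)) D x ∧ ‖D‖ ≤ M := by
  obtain ⟨D, hD, hDn⟩ := Lp_deriv hM0 hM x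
  have hp := Lp_pos hM0 hM x
  refine ⟨_, hD.log hp.ne', ?_⟩
  rw [norm_smul, Real.norm_eq_abs, abs_of_pos (inv_pos.2 hp)]
  calc (Lp π x)⁻¹ * ‖D‖ ≤ (Lp π x)⁻¹ * (M * Lp π x) := by gcongr
    _ = M := by field_simp

end

/-- the log-likelihood ratio -/
noncomputable def g (π η : Measure (EuclideanSpace ℝ (Fin d))) (x : EuclideanSpace ℝ (Fin d)) : ℝ :=
  Real.log (Lp π x) - Real.log (Lp η x)

section

variable {π η : Measure (EuclideanSpace ℝ (Fin d))} [IsProbabilityMeasure π]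
  [IsProbabilityMeasure η] {M : ℝ}

lemma g_diff (hM0 : 0 ≤ M) (hπ : π (Metric.closedBall 0 M)ᶜ = 0)
    (hη : η (Metric.closedBall 0 M)ᶜ = 0) :
    Differentiable ℝ (g π η) ∧ ∀ x, ‖fderiv ℝ (g π η) x‖ ≤ 2 * M := by
  have h : ∀ x, ∃ D : EuclideanSpace ℝ (Fin d) →L[ℝ] ℝ, HasFDerivAt (g π η) D x ∧ ‖D‖ ≤ 2 * M := by
    intro x
    obtain ⟨D1, h1, h1n⟩ := log_deriv hM0 hπ x
    obtain ⟨D2, h2, h2n⟩ := log_deriv hM0 hη x
    refine ⟨D1 - D2, h1.sub h2, ?_⟩
    calc ‖D1 - D2‖ ≤ ‖D1‖ + ‖D2‖ := norm_sub_le _ _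
      _ ≤ 2 * M := by linarith
  constructor
  · intro x
    obtain ⟨D, hD, -⟩ := h x
    exact hD.differentiableAt
  · intro x
    obtain ⟨D, hD, hDn⟩ := h x
    rw [hD.fderiv]; exact hDn

lemma g_exp (hM0 : 0 ≤ M) (hπ : π (Metric.closedBall 0 M)ᶜ = 0)
    (hη : η (Metric.closedBall 0 M)ᶜ = 0) (x : EuclideanSpace ℝ (Fin d)) :
    mix π x = mix η x * Real.exp (g π η x) := by
  have h1 := Lp_pos hM0 hπ x
  have h2 := Lp_pos hM0 hη x
  rw [g, Real.exp_sub, Real.exp_log h1, Real.exp_log h2, mix_eq, mix_eq]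
  field_simp

end

/-- the cut-off function -/
noncomputable def Psi (k : ℕ) (t : ℝ) : ℝ := Real.cosh (max t 0 / k) - 1

lemma Psi_deriv (k : ℕ) (t : ℝ) : HasDerivAt (Psi k) (Real.sinh (max t 0 / k) / k) t := by
  have hf : ∀ t : ℝ, HasDerivAt (fun t : ℝ => Real.cosh (t / k) - 1) (Real.sinh (t / k) / k) t := by
    intro t
    have h1 : HasDerivAt (fun t : ℝ => t / k) (1 / k) t := (hasDerivAt_id t).div_const _
    have h2 := (h1.cosh).sub_const 1
    refine h2.congr_deriv ?_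
    ring
  rcases lt_trichotomy t 0 with h | h | h
  · have h1 : Real.sinh (max t 0 / k) / k = 0 := by rw [max_eq_right h.le]; simp
    rw [h1]
    refine (hasDerivAt_const t (0:ℝ)).congr_of_eventuallyEq ?_
    filter_upwards [Iio_mem_nhds h] with s hs
    simp [Psi, max_eq_right (mem_Iio.1 hs).le]
  · subst h
    have h1 : Real.sinh (max (0:ℝ) 0 / k) / k = 0 := by simp
    rw [h1, ← hasDerivWithinAt_univ, ← Iic_union_Ici (a := (0:ℝ))]
    refine HasDerivWithinAt.union ?_ ?_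
    · refine (hasDerivWithinAt_const (0:ℝ) _ (0:ℝ)).congr (fun s hs => ?_) (by simp [Psi])
      simp [Psi, max_eq_right (mem_Iic.1 hs)]
    · have h2 : HasDerivWithinAt (fun t : ℝ => Real.cosh (t / k) - 1) 0 (Ici 0) 0 := by
        have := (hf 0).hasDerivWithinAt (s := Ici 0)
        simpa using this
      refine h2.congr (fun s hs => ?_) (by simp [Psi])
      simp [Psi, max_eq_left (mem_Ici.1 hs)]
  · rw [max_eq_left h.le]
    refine (hf t).congr_of_eventuallyEq ?_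
    filter_upwards [Ioi_mem_nhds h] with s hs
    simp [Psi, max_eq_left (mem_Ioi.1 hs).le]

lemma Psi_nonneg (k : ℕ) (t : ℝ) : 0 ≤ Psi k t := by
  unfold Psi; linarith [Real.one_le_cosh (max t 0 / k)]

lemma Psi_zero (k : ℕ) {t : ℝ} (ht : t ≤ 0) : Psi k t = 0 := by
  simp [Psi, max_eq_right ht]

lemma Psi_deriv_le {k : ℕ} (hk : 1 ≤ k) (t : ℝ) :
    |Real.sinh (max t 0 / k) / k| ≤ (Psi k t + 1) / k := by
  have hk0 : (0:ℝ) < k := by exact_mod_cast hk
  have h0 : 0 ≤ max t 0 / k := by positivity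
  have h1 : 0 ≤ Real.sinh (max t 0 / k) := Real.sinh_nonneg_iff.2 h0
  rw [abs_div, abs_of_nonneg h1, abs_of_pos hk0]
  gcongr
  unfold Psi
  have := Real.sinh_lt_cosh (max t 0 / k)
  linarith

/-- `e^(2t) ≤ 4^k (Psi t + 1)^(2k)` for `t ≥ 0` -/
lemma exp_le_Psi {k : ℕ} (hk : 1 ≤ k) {t : ℝ} (ht : 0 ≤ t) :
    Real.exp (2 * t) ≤ 4 ^ k * (Psi k t + 1) ^ (2 * k) := by
  have hk0 : (0:ℝ) < k := by exact_mod_cast hk
  have h1 : Real.exp (t / k) ≤ 2 * (Psi k t + 1) := by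
    rw [Psi, max_eq_left ht, Real.cosh_eq]
    have := Real.exp_pos (-(t / k))
    linarith
  calc Real.exp (2 * t) = Real.exp (t / k) ^ (2 * k) := by
        rw [← Real.exp_nat_mul]; congr 1; push_cast; field_simp
    _ ≤ (2 * (Psi k t + 1)) ^ (2 * k) := by gcongr
    _ = 4 ^ k * (Psi k t + 1) ^ (2 * k) := by
        rw [mul_pow, pow_mul]; norm_num

/-- `(Psi t + 1)^(2k) ≤ e^(2 max t 0)` -/
lemma Psi_le_exp {k : ℕ} (hk : 1 ≤ k) (t : ℝ) :
    (Psi k t + 1) ^ (2 * k) ≤ Real.exp (2 * max t 0) := by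
  have hk0 : (0:ℝ) < k := by exact_mod_cast hk
  have h0 : 0 ≤ max t 0 / k := by positivity
  have h1 : Psi k t + 1 ≤ Real.exp (max t 0 / k) := by
    rw [Psi, Real.cosh_eq]
    have : Real.exp (-(max t 0 / k)) ≤ Real.exp (max t 0 / k) := Real.exp_le_exp.2 (by linarith)
    linarith
  calc (Psi k t + 1) ^ (2 * k) ≤ Real.exp (max t 0 / k) ^ (2 * k) := by
        have := Psi_nonneg k t
        gcongr
    _ = _ := by rw [← Real.exp_nat_mul]; congr 1; push_cast; field_simp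

end Pool.Agent.R972.GM
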